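import Pool.Agent.Work.MP_1ce445_hub.Interface

/-!
The windows above `1/2` for MP_1ce445_co, THE REAL INEQUALITY (RED): from the real data `Rel` (MP_1ce445_hub) to a hub value.
Definitions and statements of the blocks, with complete proofs in the docstrings.

One file `Pool/Agent/Work/MP_1ce445_red/<ID>.lean` per block, `import Pool.Agent.Work.MP_1ce445_red.Interface`,
same `open` line, theorem `stmt_<ID>` with exactly the statements of the column `uses` as hypotheses, in this order;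
auxiliary lemmas with the name of the block in front.

Notation: `D = 1 - c`, `δ = (m + 1) D - 1 > 0`, `K = √(δ (D - δ/m))` (the symmetric hub). Index `0` = the hub = the largest
`a_j`; `x = a0 + ρ0`, `t = r - a0 ≥ 0`, `ζ ≥ z`, `τ = t + ζ`, `b = ∑ α_i = δ + τ`, `ρ' = ∑ ρ_i`, `ρ = ρ0 + ρ'`;
`y_i = α_i δ/(δ + τ)`, `θ_i = α_i - y_i ≥ 0`, `R = √(D δ - ∑ y_i²)`, `e_i = y_i (D - y_i)/R - y_i`, `ν_i = e_i/(c - e_i)`.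
-/

namespace Pool.Agent.Work.MP_1ce445_red

open Finset Pool.Agent.Work.MP_1ce445_hub

/-- the window -/
structure Win (m : ℕ) (c δ K : ℝ) : Prop where
  hm : 2 ≤ m
  dl : 0 < δ
  dc : ((m : ℝ) + 1) * (1 - c) = 1 + δ
  Kp : 0 < K
  K2 : K ^ 2 = δ * (1 - c - δ / m)
  win : (m = 2 ∧ δ ≤ 395 / 10000) ∨ (m = 3 ∧ δ ≤ 97 / 10000) ∨
    (4 ≤ m ∧ δ ≤ 1 / (m : ℝ) ∧ K ≤ 1 / (2 * (m : ℝ) ^ 2))

/-- the numerical facts -/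
structure Uni (m : ℕ) (c δ K : ℝ) : Prop where
  dl : 0 < δ
  Kp : 0 < K
  e : (1 - c) * δ = K ^ 2 + δ ^ 2 / m
  c1 : c < 1
  u1 : δ ≤ 348 / 1000 * K
  u2 : δ ^ 2 * (1 - 1 / m) ≤ 61 / 1000 * K ^ 2
  u3 : 304 / 100 * K ≤ 1 - c
  u4 : 6535 / 10000 ≤ c
  u5 : K ≤ 1137 / 10000
  u6 : K - δ ≤ 77 / 1000

/-- The data after the choice of the hub. -/
structure Dat (m : ℕ) (c δ a0 ρ0 d0 : ℝ) (α ρ d : Fin m → ℝ) (r z ζ : ℝ) : Prop where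
  zpos : 0 ≤ z
  zz : z ≤ ζ
  r0 : 0 ≤ ρ0
  rh : ∀ i, 0 ≤ ρ i
  al : ∀ i, 0 ≤ α i
  ala : ∀ i, α i ≤ a0
  a0p : 0 < a0
  d0p : 0 ≤ d0
  dp : ∀ i, 0 ≤ d i
  t : a0 ≤ r
  n0 : a0 + ρ0 ≤ 1 - c
  suma : a0 + ∑ i, α i = δ + r + ζ
  sumd : r - δ - z ≤ d0 + ∑ i, d i
  tot : (1 - c - a0 - ρ0) * a0 + ∑ i, (1 - c - α i - ρ i) * α i ≤ (1 - c) * r
  ind : ∀ i, (1 - c - α i - ρ i) * α i ≤ (a0 + ρ0) * (α i + d i) + (1 - c - a0 - ρ0) * (r - a0)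

/-- the smallness facts -/
structure Sma (c δ K x r ρ ζ τ : ℝ) : Prop where
  rho : ρ ≤ 366 / 1000 * K
  tau : τ ≤ 106 / 1000 * K
  x1 : 79 / 100 * K ≤ x
  x2 : x ≤ 1152 / 1000 * K

/-- UNI (80 lines). `D = (1 + δ)/(m + 1)`, `K² = δ (m - δ)/(m (m + 1))`. m = 2: `K² = δ (2 - δ)/6`, `δ ≤ .0395`: `K² ≤ .012907`
so `K ≤ .1137`; `δ² ≤ .348² K²` iff `δ ≤ .020184 (2 - δ)`; `δ²/2 ≤ .061 K²` iff `δ/2 ≤ .0101666 (2 - δ)`;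
`3.04² δ (2 - δ)/6 ≤ (1 + δ)²/9`; `c = 1 - (1 + δ)/3 ≥ .6535`; u6: `K² ≤ D δ ≤ .3465 δ` and
`K - K²/.3465 ≤ .077` for `K ≤ .1137`. m = 3: `K² = δ (3 - δ)/12`, `K ≤ .0492`, everything with room. m ≥ 4: `K ≤ 1/32`,
`δ ≤ 1/4`, `K² ≥ (15/16) δ/(m + 1)`, so `δ ≤ (16/15)(m + 1) K² ≤ (16/15) (m + 1)/(2 m²) K ≤ K/6`; `D ≥ 1/(m + 1)`,
`K ≤ 1/(2 m²)`, so `D ≥ (2 m²/(m+1)) K ≥ 6.4 K`; `D ≤ (5/4)/5`. -/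
def Stmt_UNI : Prop := ∀ (m : ℕ) (c δ K : ℝ), Win m c δ K → Uni m c δ K

/-- PRE (120 lines). `h` = index of the largest `a` (`Finite.exists_max`). `α i = max (a (h.succAbove i)) 0`,
`ρ i = ρ (h.succAbove i)`, `d i = d (h.succAbove i)`, `ζ = z + ∑ j, max (- a j) 0` (`a h > 0`: the sum of all `a` is
`δ + r + z > 0`). `Fin.sum_univ_succAbove`. `ala`: `a0` is the largest and positive; `t`: `rj1 h`, `dpos h`; `suma`: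
`max a 0 = a + max (-a) 0`; `tot`: `(D - max a 0 - ρ) max a 0 = (D - a - ρ) max a 0`; `ind`: if `a_i ≥ 0` this is `Rel.ind`
with `j0 = h`; if `a_i < 0` the left side is `0` and the right side is `≥ 0`. -/
def Stmt_PRE : Prop :=
  ∀ (m : ℕ) (c δ : ℝ) (a ρ d : Fin (m + 1) → ℝ) (r z : ℝ), 0 < δ → ((m : ℝ) + 1) * (1 - c) = 1 + δ →
    Rel m c a ρ d r z → ∃ (h : Fin (m + 1)) (ζ : ℝ),
      Dat m c δ (a h) (ρ h) (d h) (fun i => max (a (h.succAbove i)) 0) (fun i => ρ (h.succAbove i))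
        (fun i => d (h.succAbove i)) r z ζ

/-- QUB (40 lines; uses `Pool.Agent.Work.MP_1ce445_upg.Stmt_QUA`, `κ = 0`, `r₀ = z`, `η = δ`, `A = univ`). `r ≤ 1`: `a_j ≤ D`
(npos, rho), so `δ + r + z ≤ (m + 1) D = 1 + δ`. `δ (D - δ) = K² - δ² (1 - 1/m) ≥ .939 K² ≥ (.969 K)²`. -/
def Stmt_QUB : Prop :=
  ∀ (m : ℕ) (c δ K : ℝ) (a ρ d : Fin (m + 1) → ℝ) (r z : ℝ), Win m c δ K → Uni m c δ K →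
    Rel m c a ρ d r z → 969 / 1000 * K ≤ r + (∑ j, ρ j) / 2

/-- SM3 (100 lines), `m ≥ 3`. Let `q = m/(m+1)`, `X = (r - z)/m`, `u = ((m + 1) K - δ)/m²`. Then `(m - r + z)/(m + 1) = q (1 - X)`,
`c = q (1 - δ/m)`, `c - (K - δ)/m = q (1 - u)`. Left side `≤ q^(m+1) exp (-((m+1) X + ρ + 2 z))` and
`(m+1) X + ρ + 2 z = ((m+1)/m) (r + (m/(m+1)) ρ + ((m-1)/(m+1)) z) ≥ ((m+1)/m) (1.03 K)`. Right side: `1 - v ≥ exp (-v - v²)` for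
`0 ≤ v ≤ 1/2` (`Real.quadratic_le_exp_of_nonneg`), so it is `≥ q^(m+1) exp (-(δ/m + (δ/m)² + m u + m u²))`, and
`δ/m + m u = ((m+1)/m) K`. Enough: `(δ/m)² + m u² ≤ ((m+1)/m) (.03 K)`: `u ≤ (m+1) K/m²`; m = 3: `K ≤ .0492`,
`m u² (m/(m+1)) ≤ (4/9) K² ≤ .0219 K`, `(δ/3)² (3/4) ≤ .0011 K` (`δ ≤ .348 K`); m ≥ 4: `K ≤ 1/(2m²)`,
`((m+1)/m²) K² ≤ (5/512) K`. -/
def Stmt_SM3 : Prop :=
  ∀ (m : ℕ) (c δ K r z ρ : ℝ), 3 ≤ m → Win m c δ K → Uni m c δ K → 0 ≤ r → 0 ≤ z → 0 ≤ ρ →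
    0 ≤ (m : ℝ) - r + z → 103 / 100 * K < r + 2 / 3 * ρ + 1 / 3 * z →
    (((m : ℝ) - r + z) / (m + 1)) ^ (m + 1) * Real.exp (-(ρ + 2 * z)) ≤ c * (c - (K - δ) / m) ^ m

/-- SM2 (100 lines), `m = 2`. `q = 2/3`, `X = (r - z)/2`, `u = (3 K - δ)/4`, `σ = r + (2/3) ρ + (1/3) z > 1.03 K`. Right side
`= q³ (1 - δ/2) (1 - u)²`, and `1 - v ≥ exp (-v - .55 v²)` for `0 ≤ v ≤ .09` (`Real.quadratic_le_exp_of_nonneg`: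
`(1 + w + w²/2) (1 - v) ≥ 1` with `w = v + .55 v²`), so it is `≥ q³ exp (-(1.5 K + .55 (δ/2)² + 1.1 u²))`.
`δ ≥ K²/D ≥ 2.88 K²`, so `u ≤ .75 K - .72 K²`; `.55 (δ/2)² ≤ .0167 K²`. (a) `σ ≥ 1.04 K`: left side
`≤ q³ exp (-1.5 σ)`, and `.06 K ≥ .0167 K² + 1.1 (.75 K - .72 K²)²` for `0 < K ≤ .1137`. (b) `σ < 1.04 K`: with
`.969 K ≤ r + ρ/2`: `ρ/6 + z/3 ≤ .071 K`, so `r - z ≥ .969 K - 3 (.071) K = .756 K`, `X ≥ .378 K`; `1 - X ≤ exp (-X - X²/2)`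
(`X ≥ 0`; from `Real.hasSum_pow_div_log_of_abs_lt_one`), left side `≤ q³ exp (-(1.5 σ + 1.5 X²))`, and
`.045 K + .214 K² ≥ .0167 K² + 1.1 (.75 K - .72 K²)²`. -/
def Stmt_SM2 : Prop :=
  ∀ (c δ K r z ρ : ℝ), Win 2 c δ K → Uni 2 c δ K → 0 ≤ r → 0 ≤ z → 0 ≤ ρ →
    0 ≤ 2 - r + z → 969 / 1000 * K ≤ r + ρ / 2 → 103 / 100 * K < r + 2 / 3 * ρ + 1 / 3 * z →
    ((2 - r + z) / 3) ^ 3 * Real.exp (-(ρ + 2 * z)) ≤ c * (c - (K - δ) / 2) ^ 2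

/-- BOO (120 lines). `x = a0 + ρ0`, `t = r - a0`, `τ = t + ζ`, `b = ∑ α = δ + τ`, `ρ' = ∑ ρ i`, `ρ = ρ0 + ρ'`.
`tot` gives (T1) `D (δ + ζ) ≤ a0 x + ∑ α² + ∑ ρ_i α_i`, and `D δ = K² + δ²/m`, `D ≥ 3.04 K`. (i) The two inequalities for `r`
give `ρ ≤ .366 K`, so `r + ρ ≤ 1.152 K`, `x ≤ r + ρ`. (ii) `∑ α² ≤ a0 b`, `∑ ρ_i α_i ≤ a0 ρ'`:
`K² + 3.04 K ζ ≤ a0 (δ + r + ζ + ρ) ≤ (1.03 K - t) (1.5 K + ζ)`, so `1.5 K τ ≤ .545 K²`. (iii) `∑ α² ≤ b²`: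
`K² + δ²/m + 3.04 K ζ ≤ a0 (a0 + ρ) + b² ≤ (1.03 K - t)² + (δ + τ)²`
(`a0 + ρ/2 ≤ 1.03 K - t`), so `(2.06 - .696) K τ - 2 τ² ≤ .1219 K²` (`t² ≤ τ²`, `t K` and `ζ K` terms), and as
`τ ≤ .3634 K`: `τ ≤ .106 K`. (iv) `∑ α² ≤ b²`, `∑ ρ_i α_i ≤ b ρ'`: `K² ≤ a0 x + b (b + ρ')`, `b ≤ .454 K`, `ρ' ≤ .366 K`,
so `x² ≥ a0 x ≥ .627 K²`. -/
def Stmt_BOO : Prop :=
  ∀ (m : ℕ) (c δ K a0 ρ0 d0 : ℝ) (α ρ d : Fin m → ℝ) (r z ζ : ℝ), Uni m c δ K →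
    Dat m c δ a0 ρ0 d0 α ρ d r z ζ → 969 / 1000 * K ≤ r + (ρ0 + ∑ i, ρ i) / 2 →
    r + 2 / 3 * (ρ0 + ∑ i, ρ i) + 1 / 3 * z ≤ 103 / 100 * K →
    Sma c δ K (a0 + ρ0) r (ρ0 + ∑ i, ρ i) ζ (r - a0 + ζ)

/-- HUV (80 lines), the hub values. `y_i = α_i δ/(δ + τ)`, `b = ∑ α = δ + τ > 0`. `∑ y² ≤ (∑ y)² = δ²` and
`∑ y² ≥ δ²/m` (Cauchy), so `D δ - ∑ y² = K² + δ²/m - ∑ y²` is between `K² - δ² (1 - 1/m) ≥ .939 K²` and `K²`: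
`.969 K ≤ R ≤ K`, `R = √(D δ - ∑ y²)`. `0 ≤ y_i ≤ δ`, `y_i ≤ α_i`. `e_i = y_i (D - R - y_i)/R ≥ 0` (`R + δ ≤ 1.348 K ≤ D`),
`∑ e_i = R - δ ≤ .077`, so `e_i ≤ R - δ < c`. -/
def Stmt_HUV : Prop :=
  ∀ (m : ℕ) (c δ K a0 ρ0 d0 : ℝ) (α ρ d : Fin m → ℝ) (r z ζ : ℝ), Uni m c δ K →
    Dat m c δ a0 ρ0 d0 α ρ d r z ζ → 
    ∃ (y : Fin m → ℝ) (R : ℝ), (∀ i, 0 ≤ y i ∧ y i ≤ α i ∧ y i ≤ δ) ∧ ∑ i, y i = δ ∧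
      R ^ 2 = (1 - c) * δ - ∑ i, y i ^ 2 ∧ 969 / 1000 * K ≤ R ∧ R ≤ K ∧
      (∀ i, 0 ≤ y i * (1 - c - y i) / R - y i ∧ y i * (1 - c - y i) / R - y i ≤ R - δ) ∧
      ∑ i, (y i * (1 - c - y i) / R - y i) = R - δ

/-- IND (60 lines). With `e_i = y_i (D - y_i)/R - y_i`, `θ_i = α_i - y_i`: (1) `Dat.ind` divided by `x` (`x > 0`):
`x (d_i - e_i) ≥ y_i (D - y_i) (1 - x/R) + θ_i (D - α_i - y_i - x) - ρ_i α_i - (D - x) t`, and the second term is `≥ 0`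
(`2 b + x ≤ D`), `α_i ≤ b`. (2) `Dat.tot`: `D (δ + ζ) ≤ a0 x + ∑ α² + ∑ ρ_i α_i`, `α² = y² + θ (α + y) ≤ y² + 2 b θ`,
`∑ θ = τ`, `ρ_i α_i ≤ b ρ_i`. -/
def Stmt_IND : Prop :=
  ∀ (m : ℕ) (c δ K a0 ρ0 d0 : ℝ) (α ρ d : Fin m → ℝ) (r z ζ : ℝ) (y : Fin m → ℝ) (R : ℝ), Uni m c δ K →
    Dat m c δ a0 ρ0 d0 α ρ d r z ζ → Sma c δ K (a0 + ρ0) r (ρ0 + ∑ i, ρ i) ζ (r - a0 + ζ) →
    (∀ i, 0 ≤ y i ∧ y i ≤ α i ∧ y i ≤ δ) → ∑ i, y i = δ → R ^ 2 = (1 - c) * δ - ∑ i, y i ^ 2 → 0 < R →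
    (∀ i, y i * (1 - c - y i) * (1 - (a0 + ρ0) / R) - (∑ j, α j) * ρ i - (1 - c - (a0 + ρ0)) * (r - a0) ≤
      (a0 + ρ0) * (d i - (y i * (1 - c - y i) / R - y i))) ∧
    R ^ 2 + (1 - c - 2 * ∑ j, α j) * ζ - 2 * (∑ j, α j) * (r - a0) - (∑ j, α j) * ∑ i, ρ i ≤ a0 * (a0 + ρ0)

/-- COF (60 lines), real numbers. `b = δ + τ ≤ δ + .106 K ≤ .454 K`, `x ≥ .79 K`, `.969 K ≤ R ≤ K`, `0 ≤ N (c - (R - δ)) ≤ R - δ`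
(so `N ≤ .077/.5765 ≤ .134`). (1) `x/(x + R) ≥ .79/1.79 ≥ .4413`, `(1 - .134) (.4413) = .382 ≥ .3465 ≥ D`.
(2) `2 b/(x + R) ≤ 2 (δ + .106 K)/(1.759 K) ≤ 1.138 w + .1206` (`w = δ/K ≤ .348`);
`N (D - x)/x ≤ (K - δ)/(c - K) * (D - .79 K)/(.79 K) ≤ (1 - w) (.54/.79)` (`D - .79 K ≤ .54 (c - K)`); sum `≤ .97`.
(3) `N b/x ≤ .08`, `b/(x + R) ≤ .26`. (4) `2 b + x ≤ 2.06 K ≤ D`. -/
def Stmt_COF : Prop :=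
  ∀ (m : ℕ) (c δ K x R b N : ℝ), Uni m c δ K → 0 ≤ b → b ≤ δ + 106 / 1000 * K → 79 / 100 * K ≤ x →
    x ≤ 1152 / 1000 * K → 969 / 1000 * K ≤ R → R ≤ K → 0 ≤ N → N * (c - (R - δ)) ≤ R - δ →
    N ≤ 1 ∧ 1 - c ≤ (1 - N) * (x / (x + R)) ∧ 2 * b / (x + R) + N * ((1 - c - x) / x) ≤ 1 ∧
      N * (b / x) + b / (x + R) ≤ c ∧ 2 * b + x ≤ 1 - c

/-- APR (120 lines; uses IND COF). The inequality (A'). `D = 1 - c`, `x = a0 + ρ0`, `t = r - a0`, `b = ∑ α`,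
`e_i = y_i (D - y_i)/R - y_i ≥ 0`, `ν_i = e_i/(c - e_i)`, `N = ∑ ν_i` (`ν_i ≤ e_i/(c - (R - δ))`, so `N (c - (R - δ)) ≤ R - δ`), `ν_i ≤ N`.
Multiply IND (1) by `ν_i/x` and sum. Case `x < R`: the first term is `≥ 0`:
`∑ ν_i (d_i - e_i) ≥ - N b ρ'/x - N (D - x) t/x` (`∑ ν_i ρ_i ≤ N ρ'`). IND (2) gives
`(x - R)(x + R) = x² - R² ≥ ρ0 x + (D - 2 b) ζ - 2 b t - b ρ'`. So the left side is at least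
`ρ0 (x/(x + R) - D) + t (1 - 2 b/(x + R) - N (D - x)/x) + ρ' (c - b/(x + R) - N b/x) + (2 c - 1) z ≥ 0` (COF). Case `x ≥ R`:
`∑ ν_i y_i (D - y_i) (1 - x/R)/x ≥ - N (x - R) R²/(x R) ≥ - N (x - R)` (`∑ y_i (D - y_i) = R²`), and the left side is at least the
same expression with `(1 - N) (x - R)` instead of `x - R`: coefficients `(1 - N) x/(x + R) - D` etc. -/
def Stmt_APR : Prop :=
  ∀ (m : ℕ) (c δ K a0 ρ0 d0 : ℝ) (α ρ d : Fin m → ℝ) (r z ζ : ℝ) (y : Fin m → ℝ) (R : ℝ), Uni m c δ K →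
    Dat m c δ a0 ρ0 d0 α ρ d r z ζ → Sma c δ K (a0 + ρ0) r (ρ0 + ∑ i, ρ i) ζ (r - a0 + ζ) →
    (∀ i, 0 ≤ y i ∧ y i ≤ α i ∧ y i ≤ δ) → ∑ i, y i = δ → R ^ 2 = (1 - c) * δ - ∑ i, y i ^ 2 →
    969 / 1000 * K ≤ R → R ≤ K →
    (∀ i, 0 ≤ y i * (1 - c - y i) / R - y i ∧ y i * (1 - c - y i) / R - y i ≤ R - δ) →
    ∑ i, (y i * (1 - c - y i) / R - y i) = R - δ →
    0 ≤ r - R + c * (ρ0 + ∑ i, ρ i) + (2 * c - 1) * z +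
      ∑ i, (y i * (1 - c - y i) / R - y i) / (c - (y i * (1 - c - y i) / R - y i)) *
        (d i - (y i * (1 - c - y i) / R - y i))

/-- TNG (60 lines). Tangents. `c - d_i ≤ (c - e_i) exp (-(d_i - e_i)/(c - e_i))` (`1 - s ≤ exp (-s)`, `c - d_i = (c - e_i)(1 - s)`,
`s = (d_i - e_i)/(c - e_i)`), `c - d0 ≤ c exp (-d0/c)`, all factors `≥ 0`; `1/(c - e_i) = (1/c) (1 + ν_i)`. The exponent is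
`-(1/c) [d0 + ∑ (d_i - e_i) + ∑ ν_i (d_i - e_i) + c (P + 2 z)] ≤ 0`. -/
def Stmt_TNG : Prop :=
  ∀ (m : ℕ) (c d0 P z : ℝ) (d e : Fin m → ℝ), 0 < c → d0 ≤ c → (∀ i, d i ≤ c) → (∀ i, e i < c) →
    0 ≤ d0 + ∑ i, (d i - e i) + ∑ i, e i / (c - e i) * (d i - e i) + c * (P + 2 * z) →
    (c - d0) * (∏ i, (c - d i)) * Real.exp (-(P + 2 * z)) ≤ c * ∏ i, (c - e i)

/-- RED (100 lines; uses UNI PRE QUB SM3 SM2 BOO HUV APR TNG). Let `P = ∑ ρ_j`. AM-GM: `∏ (c - d_j) ≤ ((m - r + z)/(m + 1))^(m+1)`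
(`∑ (c - d_j) ≤ (m + 1) c - (r - δ - z) = m - r + z`, all `c - d_j ≥ 0`; lemma `TB_amgm` of MP_1ce445_hub/TB.lean). If
`r + (2/3) P + z/3 > 1.03 K`: SM2 or SM3, and take `y_i = δ/m`, `R = K` (`K² = D δ - m (δ/m)²`), `e_i = (K - δ)/m`
(`(δ/m)(D - δ/m)/K = K/m`). Otherwise BOO, HUV, APR, TNG (`d0 + ∑ (d_i - e_i) ≥ r - δ - z - (R - δ)`);
`Fin.prod_univ_succAbove`, `Fin.sum_univ_succAbove`. -/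
def Stmt_RED : Prop :=
  ∀ (m : ℕ) (c δ K : ℝ) (a ρ d : Fin (m + 1) → ℝ) (r z : ℝ), Win m c δ K → Rel m c a ρ d r z → (∀ j, d j ≤ c) →
    ∃ (y : Fin m → ℝ) (R : ℝ), (∀ i, 0 ≤ y i) ∧ ∑ i, y i = δ ∧ 0 < R ∧ R ^ 2 = (1 - c) * δ - ∑ i, y i ^ 2 ∧
      (∏ j, (c - d j)) * Real.exp (-(∑ j, ρ j + 2 * z)) ≤ c * ∏ i, (c - (y i * (1 - c - y i) / R - y i))

end Pool.Agent.Work.MP_1ce445_red
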