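import Pool.Agent.Work.MP_1ce445_red.Interface

/-!
The real inequality above `1/2` for MP_1ce445_co, block APR: the inequality (A').
-/

namespace Pool.Agent.Work.MP_1ce445_red

open Finset Pool.Agent.Work.MP_1ce445_hub

/-- the two cases, abstractly: `S` is the sum with the `ν_i`, `F = ∑ ν_i y_i (D - y_i)` -/
lemma APR_fin {c R x b N ρ0 P' t ζ z S F r : ℝ} (hc0 : 1 / 2 ≤ c) (hR : 0 < R) (hx : 0 < x)
    (hb : 0 ≤ b) (hN : 0 ≤ N) (hN1 : N ≤ 1) (hρ0 : 0 ≤ ρ0) (hP : 0 ≤ P') (ht : 0 ≤ t) (hζ : 0 ≤ ζ) (hz : 0 ≤ z)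
    (hr : r = x - ρ0 + t) (hDb : 2 * b + x ≤ 1 - c)
    (hF0 : 0 ≤ F) (hF : F ≤ N * R ^ 2)
    (hS : F * (1 - x / R) - N * b * P' - N * (1 - c - x) * t ≤ x * S)
    (hT : R ^ 2 + (1 - c - 2 * b) * ζ - 2 * b * t - b * P' ≤ (x - ρ0) * x)
    (c1 : 1 - c ≤ (1 - N) * (x / (x + R))) (c2 : 2 * b / (x + R) + N * ((1 - c - x) / x) ≤ 1)
    (c3 : N * (b / x) + b / (x + R) ≤ c) :
    0 ≤ r - R + c * (ρ0 + P') + (2 * c - 1) * z + S := by
  have hxR : 0 < x + R := by linarith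
  -- `x - R` lower bound
  have hG : (ρ0 * x + (1 - c - 2 * b) * ζ - 2 * b * t - b * P') / (x + R) ≤ x - R := by
    rw [div_le_iff₀ hxR]; nlinarith
  have hG2 : ρ0 * (x / (x + R)) - t * (2 * b / (x + R)) - P' * (b / (x + R)) ≤ x - R := by
    refine le_trans ?_ hG
    have h1 : 0 ≤ (1 - c - 2 * b) * ζ / (x + R) :=
      div_nonneg (mul_nonneg (by linarith) hζ) hxR.le
    have h2 : (ρ0 * x + (1 - c - 2 * b) * ζ - 2 * b * t - b * P') / (x + R) =
        ρ0 * (x / (x + R)) - t * (2 * b / (x + R)) - P' * (b / (x + R)) + (1 - c - 2 * b) * ζ / (x + R) := by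
      field_simp
      ring
    rw [h2]; linarith
  have hS2 : F * (1 - x / R) / x - P' * (N * (b / x)) - t * (N * ((1 - c - x) / x)) ≤ S := by
    have h1 : F * (1 - x / R) / x - P' * (N * (b / x)) - t * (N * ((1 - c - x) / x)) =
        (F * (1 - x / R) - N * b * P' - N * (1 - c - x) * t) / x := by
      field_simp
    rw [h1, div_le_iff₀ hx]; linarith
  have hbx : 0 ≤ b / (x + R) := by positivity
  have hbx2 : 0 ≤ 2 * b / (x + R) := by positivity
  have hxx : 0 ≤ x / (x + R) := by positivity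
  -- coefficients
  have k1 : 0 ≤ ρ0 * ((1 - N) * (x / (x + R)) - (1 - c)) := mul_nonneg hρ0 (by linarith)
  have k2 : 0 ≤ t * (1 - 2 * b / (x + R) - N * ((1 - c - x) / x)) := mul_nonneg ht (by linarith)
  have k3 : 0 ≤ P' * (c - N * (b / x) - b / (x + R)) := mul_nonneg hP (by linarith)
  have k4 : 0 ≤ (2 * c - 1) * z := mul_nonneg (by linarith) hz
  have k5 : 0 ≤ ρ0 * (N * (x / (x + R))) := by positivity
  have k6 : 0 ≤ t * (N * (2 * b / (x + R))) := by positivity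
  have k7 : 0 ≤ P' * (N * (b / (x + R))) := by positivity
  rcases le_total x R with hcase | hcase
  · have h1 : 0 ≤ F * (1 - x / R) / x := by
      refine div_nonneg (mul_nonneg hF0 ?_) hx.le
      rw [sub_nonneg, div_le_one hR]; exact hcase
    nlinarith
  · have h1 : -(N * (x - R)) ≤ F * (1 - x / R) / x := by
      have h2 : F * (1 - x / R) / x = -(F * (x - R) / (x * R)) := by
        field_simp
        ring
      rw [h2, neg_le_neg_iff, div_le_iff₀ (by positivity)]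
      have h3 : F * (x - R) ≤ N * R ^ 2 * (x - R) := mul_le_mul_of_nonneg_right hF (by linarith)
      have h4 : N * R ^ 2 * (x - R) ≤ N * (x - R) * (x * R) := by
        have : N * (x - R) * (x * R) - N * R ^ 2 * (x - R) = N * R * (x - R) * (x - R) := by ring
        have : 0 ≤ N * R * (x - R) * (x - R) := by
          have h5 : 0 ≤ x - R := by linarith
          positivity
        linarith
      linarith
    have h2 : (1 - N) * (ρ0 * (x / (x + R)) - t * (2 * b / (x + R)) - P' * (b / (x + R))) ≤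
        (1 - N) * (x - R) := mul_le_mul_of_nonneg_left hG2 (by linarith)
    nlinarith

theorem stmt_APR (h1 : Stmt_IND) (h2 : Stmt_COF) : Stmt_APR := by
  intro m c δ K a0 ρ0 d0 α ρ d r z ζ y R hU hD hM hy hys hR2 hR1 hRK he hes
  have hK := hU.Kp
  have hR : 0 < R := by nlinarith
  obtain ⟨hI, hT⟩ := h1 m c δ K a0 ρ0 d0 α ρ d r z ζ y R hU hD hM hy hys hR2 hR
  obtain ⟨b, hb⟩ : ∃ b, b = ∑ j, α j := ⟨_, rfl⟩
  obtain ⟨P', hP'⟩ : ∃ P', P' = ∑ i, ρ i := ⟨_, rfl⟩
  obtain ⟨e, he'⟩ : ∃ e : Fin m → ℝ, e = fun i => y i * (1 - c - y i) / R - y i := ⟨_, rfl⟩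
  have hei : ∀ i, y i * (1 - c - y i) / R - y i = e i := fun i => by rw [he']
  obtain ⟨ν, hν⟩ : ∃ ν : Fin m → ℝ, ν = fun i => e i / (c - e i) := ⟨_, rfl⟩
  have hνi : ∀ i, e i / (c - e i) = ν i := fun i => by rw [hν]
  simp only [hei] at he hes hI ⊢
  simp only [hνi]
  rw [← hb] at hT hI
  rw [← hP'] at hT hM ⊢
  have hsa := hD.suma
  rw [← hb] at hsa
  have hx1 := hM.x1
  have hx : 0 < a0 + ρ0 := by linarith
  have hu6 := hU.u6
  have hu4 := hU.u4
  have hcR : 0 < c - (R - δ) := by linarith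
  have hν0 : ∀ i, 0 ≤ ν i := fun i => by
    rw [← hνi]
    exact div_nonneg (he i).1 (by linarith [(he i).2])
  have hνle : ∀ i, ν i ≤ e i / (c - (R - δ)) := fun i => by
    rw [← hνi]
    exact div_le_div_of_nonneg_left (he i).1 hcR (by linarith [(he i).2])
  obtain ⟨N, hN⟩ : ∃ N, N = ∑ i, ν i := ⟨_, rfl⟩
  have hN0 : 0 ≤ N := by rw [hN]; exact sum_nonneg fun i _ => hν0 i
  have hNν : ∀ i, ν i ≤ N := fun i => by
    rw [hN]; exact single_le_sum (fun j _ => hν0 j) (mem_univ i)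
  have hNc : N * (c - (R - δ)) ≤ R - δ := by
    have h3 : N ≤ (R - δ) / (c - (R - δ)) := by
      rw [hN, ← hes, sum_div]
      rw [hes]
      exact sum_le_sum fun i _ => hνle i
    rwa [le_div_iff₀ hcR] at h3
  have hb0 : 0 ≤ b := by rw [hb]; exact sum_nonneg fun i _ => hD.al i
  have hbτ : b ≤ δ + 106 / 1000 * K := by
    have := hM.tau
    linarith
  obtain ⟨hN1, c1, c2, c3, c4⟩ := h2 m c δ K (a0 + ρ0) R b N hU hb0 hbτ hx1 hM.x2 hR1 hRK hN0 hNc
  have hP0 : 0 ≤ P' := by rw [hP']; exact sum_nonneg fun i _ => hD.rh i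
  have ht : 0 ≤ r - a0 := by linarith [hD.t]
  have hy1 : ∀ i, 0 ≤ y i * (1 - c - y i) := fun i => by
    refine mul_nonneg (hy i).1 ?_
    have := (hy i).2.2
    have := hU.u1
    have := hU.u3
    linarith
  refine APR_fin (F := ∑ i, ν i * (y i * (1 - c - y i))) (t := r - a0) (ζ := ζ) (N := N) (x := a0 + ρ0) (b := b)
    (by linarith) hR hx hb0 hN0 hN1 hD.r0 hP0 ht (by linarith [hD.zz, hD.zpos]) hD.zpos (by ring) c4
    (sum_nonneg fun i _ => mul_nonneg (hν0 i) (hy1 i)) ?_ ?_ ?_ c1 c2 c3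
  · have h3 : ∑ i, y i * (1 - c - y i) = R ^ 2 := by
      have h4 : ∀ i, y i * (1 - c - y i) = (1 - c) * y i - y i ^ 2 := fun i => by ring
      simp only [h4]
      rw [sum_sub_distrib, ← mul_sum, hys, hR2]
    rw [← h3, mul_sum]
    exact sum_le_sum fun i _ => mul_le_mul_of_nonneg_right (hNν i) (hy1 i)
  · have h3 : ∀ i, ν i * (y i * (1 - c - y i)) * (1 - (a0 + ρ0) / R) - N * b * ρ i -
        ν i * ((1 - c - (a0 + ρ0)) * (r - a0)) ≤ (a0 + ρ0) * (ν i * (d i - e i)) := fun i => by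
      have h4 := mul_le_mul_of_nonneg_left (hI i) (hν0 i)
      have h5 : ν i * (b * ρ i) ≤ N * (b * ρ i) :=
        mul_le_mul_of_nonneg_right (hNν i) (mul_nonneg hb0 (hD.rh i))
      nlinarith
    have h4 := sum_le_sum fun i (_ : i ∈ univ) => h3 i
    rw [sum_sub_distrib, sum_sub_distrib, ← sum_mul, ← mul_sum, ← sum_mul, ← mul_sum, ← hN, ← hP'] at h4
    linarith
  · linarith

end Pool.Agent.Work.MP_1ce445_red
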