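import Pool.Agent.Work.MP_1ce445_red.Interface

/-!
# Block BOO (MP_1ce445_co, the real inequality): smallness facts (helper88)
-/

namespace Pool.Agent.Work.MP_1ce445_red

open Finset Pool.Agent.Work.MP_1ce445_hub

/-- the part of BOO without sums -/
theorem BOO_real (D δ K a0 ρ0 r z ζ b P' S2 S1 e : ℝ) (hδ : 0 < δ) (hK : 0 < K)
    (he : D * δ = K ^ 2 + e) (he0 : 0 ≤ e) (u1 : δ ≤ 348 / 1000 * K)
    (u2 : δ ^ 2 - e ≤ 61 / 1000 * K ^ 2) (u3 : 304 / 100 * K ≤ D)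
    (hz : 0 ≤ z) (hzz : z ≤ ζ) (hr0 : 0 ≤ ρ0) (hP' : 0 ≤ P') (ha0 : 0 < a0) (ht : a0 ≤ r)
    (hb0 : 0 ≤ b) (hsum : a0 + b = δ + r + ζ)
    (hT : D * (δ + ζ) ≤ a0 * (a0 + ρ0) + S2 + S1)
    (h21 : S2 ≤ a0 * b) (h22 : S2 ≤ b * b) (h11 : S1 ≤ a0 * P') (h12 : S1 ≤ b * P')
    (h1 : 969 / 1000 * K ≤ r + (ρ0 + P') / 2)
    (h2 : r + 2 / 3 * (ρ0 + P') + 1 / 3 * z ≤ 103 / 100 * K) :
    ρ0 + P' ≤ 366 / 1000 * K ∧ r - a0 + ζ ≤ 106 / 1000 * K ∧ 79 / 100 * K ≤ a0 + ρ0 ∧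
      a0 + ρ0 ≤ 1152 / 1000 * K := by
  have hρ : ρ0 + P' ≤ 366 / 1000 * K := by linarith
  have hx2 : a0 + ρ0 ≤ 1152 / 1000 * K := by linarith
  have hζ : 0 ≤ ζ := le_trans hz hzz
  obtain ⟨t, htt⟩ : ∃ t, t = r - a0 := ⟨_, rfl⟩
  have ht0 : 0 ≤ t := by linarith
  have hDζ : 304 / 100 * K * ζ ≤ D * ζ := mul_le_mul_of_nonneg_right u3 hζ
  have hT' : K ^ 2 + e + 304 / 100 * K * ζ ≤ a0 * (a0 + ρ0) + S2 + S1 := by
    have : D * (δ + ζ) = D * δ + D * ζ := by ring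
    linarith
  have ha1 : a0 ≤ 103 / 100 * K - t := by linarith
  -- step (ii)
  have hii : a0 * (δ + r + ζ + (ρ0 + P')) ≤ (103 / 100 * K - t) * (3 / 2 * K + ζ) := by
    apply mul_le_mul ha1 (by linarith) (by linarith) (by linarith)
  have hii2 : K ^ 2 + 304 / 100 * K * ζ ≤ a0 * (δ + r + ζ + (ρ0 + P')) := by
    have : a0 * (δ + r + ζ + (ρ0 + P')) = a0 * (a0 + ρ0) + a0 * b + a0 * P' := by
      rw [← hsum]; ring
    linarith
  have htζ : 0 ≤ t * ζ := mul_nonneg ht0 hζ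
  have hKζ : 0 ≤ K * ζ := mul_nonneg hK.le hζ
  have hKt : 0 ≤ K * t := mul_nonneg hK.le ht0
  have hτ1 : 3 / 2 * (t + ζ) ≤ 545 / 1000 * K := by
    have h3 : K * (3 / 2 * (t + ζ)) ≤ K * (545 / 1000 * K) := by nlinarith
    exact le_of_mul_le_mul_left h3 hK
  obtain ⟨τ, hτ⟩ : ∃ τ, τ = t + ζ := ⟨_, rfl⟩
  have hτ0 : 0 ≤ τ := by linarith
  have hbτ : b = δ + τ := by linarith
  -- step (iii)
  have hq1 : a0 * (a0 + (ρ0 + P')) ≤ (103 / 100 * K - t) ^ 2 := by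
    have h3 : a0 + (ρ0 + P') / 2 ≤ 103 / 100 * K - t := by linarith
    have h4 : (a0 + (ρ0 + P') / 2) ^ 2 ≤ (103 / 100 * K - t) ^ 2 := by
      apply pow_le_pow_left₀ (by linarith) h3
    nlinarith [sq_nonneg (ρ0 + P')]
  have hiii : K ^ 2 + e + 304 / 100 * K * ζ ≤ (103 / 100 * K - t) ^ 2 + b * b := by
    have h3 : a0 * (a0 + (ρ0 + P')) = a0 * (a0 + ρ0) + a0 * P' := by ring
    linarith
  have htau : r - a0 + ζ ≤ 106 / 1000 * K := by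
    have h3 : r - a0 + ζ = τ := by linarith
    rw [h3]
    by_contra hcon
    push Not at hcon
    have h4 : τ ≤ 36334 / 100000 * K := by linarith
    have h5 : 0 ≤ (τ - 106 / 1000 * K) * (36334 / 100000 * K - τ) :=
      mul_nonneg (by linarith) (by linarith)
    have h6 : t ^ 2 ≤ τ ^ 2 := by
      apply pow_le_pow_left₀ ht0
      linarith
    have h7 : δ * τ ≤ 348 / 1000 * K * τ := mul_le_mul_of_nonneg_right u1 hτ0
    have h8 : K * τ = K * t + K * ζ := by rw [hτ]; ring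
    have h9 : b * b = δ ^ 2 + 2 * (δ * τ) + τ ^ 2 := by rw [hbτ]; ring
    have h10 : (103 / 100 * K - t) ^ 2 = 10609 / 10000 * K ^ 2 - 206 / 100 * (K * t) + t ^ 2 := by
      ring
    have h11' : 1364 / 1000 * (K * τ) - 2 * τ ^ 2 ≤ 1219 / 10000 * K ^ 2 := by
      nlinarith
    have h12' : K * (106 / 1000 * K) < K * τ := mul_lt_mul_of_pos_left hcon hK
    nlinarith
  -- step (iv)
  have hτ2 : τ ≤ 106 / 1000 * K := by linarith
  have hb2 : b ≤ 454 / 1000 * K := by linarith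
  have hiv : b * b + b * P' ≤ 37228 / 100000 * K ^ 2 := by
    have h3 : b + P' ≤ 820 / 1000 * K := by linarith
    have h4 : b * (b + P') ≤ 454 / 1000 * K * (820 / 1000 * K) :=
      mul_le_mul hb2 h3 (by linarith) (by linarith)
    nlinarith
  have hax : 62772 / 100000 * K ^ 2 ≤ a0 * (a0 + ρ0) := by
    nlinarith
  have hx1 : 79 / 100 * K ≤ a0 + ρ0 := by
    by_contra hcon
    push Not at hcon
    have h3 : a0 * (a0 + ρ0) ≤ (a0 + ρ0) * (a0 + ρ0) :=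
      mul_le_mul_of_nonneg_right (by linarith) (by linarith)
    have h4 : (a0 + ρ0) * (a0 + ρ0) ≤ 79 / 100 * K * (79 / 100 * K) :=
      mul_le_mul hcon.le hcon.le (by linarith) (by linarith)
    nlinarith [mul_pos hK hK]
  exact ⟨hρ, htau, hx1, hx2⟩

theorem stmt_BOO : Stmt_BOO := by
  intro m c δ K a0 ρ0 d0 α ρ d r z ζ hU hD h1 h2
  have hb0 : 0 ≤ ∑ i, α i := Finset.sum_nonneg (fun i _ => hD.al i)
  have hP0 : 0 ≤ ∑ i, ρ i := Finset.sum_nonneg (fun i _ => hD.rh i)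
  have hαb : ∀ i, α i ≤ ∑ j, α j := fun i =>
    Finset.single_le_sum (fun j _ => hD.al j) (Finset.mem_univ i)
  have h21 : ∑ i, α i ^ 2 ≤ a0 * ∑ i, α i := by
    rw [Finset.mul_sum]
    apply Finset.sum_le_sum
    intro i _
    have := mul_le_mul_of_nonneg_right (hD.ala i) (hD.al i)
    rw [pow_two]
    exact this
  have h22 : ∑ i, α i ^ 2 ≤ (∑ i, α i) * ∑ i, α i := by
    rw [Finset.mul_sum]
    apply Finset.sum_le_sum
    intro i _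
    have := mul_le_mul_of_nonneg_right (hαb i) (hD.al i)
    rw [pow_two]
    exact this
  have h11 : ∑ i, ρ i * α i ≤ a0 * ∑ i, ρ i := by
    rw [Finset.mul_sum]
    apply Finset.sum_le_sum
    intro i _
    rw [mul_comm]
    exact mul_le_mul_of_nonneg_right (hD.ala i) (hD.rh i)
  have h12 : ∑ i, ρ i * α i ≤ (∑ i, α i) * ∑ i, ρ i := by
    rw [Finset.mul_sum]
    apply Finset.sum_le_sum
    intro i _
    rw [mul_comm]
    exact mul_le_mul_of_nonneg_right (hαb i) (hD.rh i)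
  have hexp : ∑ i, (1 - c - α i - ρ i) * α i =
      (1 - c) * (∑ i, α i) - (∑ i, α i ^ 2) - ∑ i, ρ i * α i := by
    rw [Finset.mul_sum, ← Finset.sum_sub_distrib, ← Finset.sum_sub_distrib]
    apply Finset.sum_congr rfl
    intro i _
    ring
  have htot := hD.tot
  rw [hexp] at htot
  have hT : (1 - c) * (δ + ζ) ≤ a0 * (a0 + ρ0) + (∑ i, α i ^ 2) + ∑ i, ρ i * α i := by
    have h3 : δ + ζ = a0 + (∑ i, α i) - r := by linarith [hD.suma]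
    rw [h3]
    linarith
  have he0 : 0 ≤ δ ^ 2 / (m : ℝ) := by positivity
  have hu2 : δ ^ 2 - δ ^ 2 / (m : ℝ) ≤ 61 / 1000 * K ^ 2 := by
    have h3 : δ ^ 2 - δ ^ 2 / (m : ℝ) = δ ^ 2 * (1 - 1 / (m : ℝ)) := by ring
    rw [h3]
    exact hU.u2
  obtain ⟨g1, g2, g3, g4⟩ := BOO_real (1 - c) δ K a0 ρ0 r z ζ (∑ i, α i) (∑ i, ρ i)
    (∑ i, α i ^ 2) (∑ i, ρ i * α i) (δ ^ 2 / (m : ℝ)) hU.dl hU.Kp hU.e he0 hU.u1 hu2 hU.u3
    hD.zpos hD.zz hD.r0 hP0 hD.a0p hD.t hb0 hD.suma hT h21 h22 h11 h12 h1 h2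
  exact ⟨g1, g2, g3, g4⟩

end Pool.Agent.Work.MP_1ce445_red
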