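import Pool.Agent.Work.MP_1ce445_red.Interface

/-!
Block COF of the table `red_blocks` (MP_1ce445_co): the coefficients of the inequality (A').
-/

namespace Pool.Agent.Work.MP_1ce445_red

open Finset Pool.Agent.Work.MP_1ce445_hub

theorem stmt_COF : Stmt_COF := by
  intro m c δ K x R b N hU hb0 hb hx1 hx2 hR1 hR2 hN0 hN
  have hδ := hU.dl
  have hK := hU.Kp
  have hc1 := hU.c1
  have u1 := hU.u1
  have u3 := hU.u3
  have u4 := hU.u4
  have u6 := hU.u6
  have hx : 0 < x := lt_of_lt_of_le (by positivity) hx1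
  have hR : 0 < R := lt_of_lt_of_le (by positivity) hR1
  have hxR : 0 < x + R := by linarith
  have hN1 : N ≤ 134 / 1000 := by
    by_contra h
    push Not at h
    have h1 : (5765 : ℝ) / 10000 ≤ c - (R - δ) := by linarith
    have h2 : N * (5765 / 10000) ≤ N * (c - (R - δ)) := mul_le_mul_of_nonneg_left h1 hN0
    linarith
  have hbK : b ≤ 454 / 1000 * K := by linarith
  obtain ⟨w, hw⟩ : ∃ w : ℝ, δ = w * K := ⟨δ / K, by field_simp⟩
  have hw0 : 0 ≤ w := by
    by_contra h
    push Not at h
    have := mul_neg_of_neg_of_pos h hK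
    linarith
  have hw1 : w ≤ 348 / 1000 := by
    rw [hw] at u1
    exact le_of_mul_le_mul_right u1 hK
  refine ⟨by linarith, ?_, ?_, ?_, by linarith⟩
  · have h1 : (4413 : ℝ) / 10000 ≤ x / (x + R) := by
      rw [le_div_iff₀ hxR]
      linarith
    have h2 : (866 / 1000 : ℝ) * (4413 / 10000) ≤ (1 - N) * (x / (x + R)) :=
      mul_le_mul (by linarith) h1 (by norm_num) (by linarith)
    linarith
  · have h1 : 2 * b / (x + R) ≤ 1138 / 1000 * w + 1206 / 10000 := by
      rw [div_le_iff₀ hxR]
      have h3 : (1138 / 1000 * w + 1206 / 10000) * (1759 / 1000 * K) ≤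
          (1138 / 1000 * w + 1206 / 10000) * (x + R) :=
        mul_le_mul_of_nonneg_left (by linarith) (by linarith)
      have h4 : 2 * b ≤ 2 * (w * K) + 212 / 1000 * K := by rw [← hw]; linarith
      have h5 : 0 ≤ w * K := mul_nonneg hw0 hK.le
      nlinarith
    have h2 : N * ((1 - c - x) / x) ≤ 54 / 79 * (1 - w) := by
      rw [← mul_div_assoc, div_le_iff₀ hx]
      have h3 : N * (c - K) ≤ (1 - w) * K := by
        have h4 : N * (c - K) ≤ N * (c - (R - δ)) := mul_le_mul_of_nonneg_left (by linarith) hN0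
        have h5 : (1 - w) * K = K - δ := by rw [hw]; ring
        rw [h5]
        linarith
      have h6 : N * (1 - c - x) ≤ N * (54 / 100 * (c - K)) :=
        mul_le_mul_of_nonneg_left (by linarith) hN0
      have h7 : 54 / 79 * (1 - w) * (79 / 100 * K) ≤ 54 / 79 * (1 - w) * x :=
        mul_le_mul_of_nonneg_left hx1 (by linarith)
      linarith
    linarith
  · have h1 : b / x ≤ 575 / 1000 := by
      rw [div_le_iff₀ hx]
      linarith
    have h2 : b / (x + R) ≤ 26 / 100 := by
      rw [div_le_iff₀ hxR]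
      linarith
    have h3 : N * (b / x) ≤ 134 / 1000 * (575 / 1000) :=
      mul_le_mul hN1 h1 (div_nonneg hb0 hx.le) (by norm_num)
    linarith

end Pool.Agent.Work.MP_1ce445_red
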