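import Pool.Agent.Work.MP_1ce445_red.Interface

/-!
Block HUV: the hub values.
-/

namespace Pool.Agent.Work.MP_1ce445_red

open Finset Pool.Agent.Work.MP_1ce445_hub

theorem stmt_HUV : Stmt_HUV := by
  intro m c δ K a0 ρ0 d0 α ρ d r z ζ hU hD
  obtain ⟨b, hb⟩ : ∃ b, b = ∑ i, α i := ⟨_, rfl⟩
  have hsuma := hD.suma
  have ht := hD.t
  have hz := hD.zpos
  have hzz := hD.zz
  have hdl := hU.dl
  have hK := hU.Kp
  have hbδ : δ ≤ b := by
    rw [← hb] at hsuma
    linarith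
  have hb0 : 0 < b := lt_of_lt_of_le hdl hbδ
  have hm : 0 < m := by
    rcases Nat.eq_zero_or_pos m with h | h
    · subst h
      simp at hb
      linarith
    · exact h
  have hmR : (0 : ℝ) < m := by exact_mod_cast hm
  obtain ⟨y, hy⟩ : ∃ y : Fin m → ℝ, y = fun i => α i * δ / b := ⟨_, rfl⟩
  have hyi : ∀ i, y i = α i * δ / b := by intro i; rw [hy]
  have hy0 : ∀ i, 0 ≤ y i := by
    intro i
    rw [hyi]
    exact div_nonneg (mul_nonneg (hD.al i) hdl.le) hb0.le
  have hyα : ∀ i, y i ≤ α i := by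
    intro i
    rw [hyi, div_le_iff₀ hb0]
    exact mul_le_mul_of_nonneg_left hbδ (hD.al i)
  have hysum : ∑ i, y i = δ := by
    have h1 : ∑ i, y i = (∑ i, α i) * δ / b := by
      rw [Finset.sum_mul, Finset.sum_div]
      exact Finset.sum_congr rfl (fun i _ => hyi i)
    rw [h1, ← hb]
    field_simp
  have hyδ : ∀ i, y i ≤ δ := by
    intro i
    have h1 := Finset.single_le_sum (f := y) (s := Finset.univ) (fun j _ => hy0 j) (Finset.mem_univ i)
    rw [hysum] at h1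
    exact h1
  obtain ⟨Q, hQ⟩ : ∃ Q, Q = ∑ i, y i ^ 2 := ⟨_, rfl⟩
  have hQ1 : Q ≤ δ ^ 2 := by
    have h1 : ∑ i, y i ^ 2 ≤ ∑ i, y i * δ := by
      apply Finset.sum_le_sum
      intro i _
      rw [pow_two]
      exact mul_le_mul_of_nonneg_left (hyδ i) (hy0 i)
    rw [← Finset.sum_mul, hysum] at h1
    rw [hQ]
    nlinarith
  have hQ2 : δ ^ 2 / m ≤ Q := by
    have h1 := sq_sum_le_card_mul_sum_sq (s := (Finset.univ : Finset (Fin m))) (f := y)
    rw [hysum, Finset.card_univ, Fintype.card_fin, ← hQ] at h1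
    rw [div_le_iff₀ hmR]
    linarith
  have he := hU.e
  have hu2 := hU.u2
  have hRlow : 939 / 1000 * K ^ 2 ≤ (1 - c) * δ - Q := by
    have h1 : δ ^ 2 * (1 - 1 / m) = δ ^ 2 - δ ^ 2 / m := by ring
    rw [h1] at hu2
    rw [he]
    linarith
  have hRup : (1 - c) * δ - Q ≤ K ^ 2 := by
    rw [he]
    linarith
  have hX0 : 0 ≤ (1 - c) * δ - Q := le_trans (by positivity) hRlow
  obtain ⟨R, hR⟩ : ∃ R, R = Real.sqrt ((1 - c) * δ - Q) := ⟨_, rfl⟩
  have hR2 : R ^ 2 = (1 - c) * δ - Q := by rw [hR, Real.sq_sqrt hX0]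
  have hR0 : 0 ≤ R := by rw [hR]; exact Real.sqrt_nonneg _
  have hRK : R ≤ K := by
    refine le_of_sq_le_sq ?_ hK.le
    rw [hR2]
    exact hRup
  have hRl : 969 / 1000 * K ≤ R := by
    rw [hR]
    apply Real.le_sqrt_of_sq_le
    nlinarith [sq_nonneg K]
  have hRpos : 0 < R := lt_of_lt_of_le (by positivity) hRl
  have hu1 := hU.u1
  have hu3 := hU.u3
  have hsumE : ∑ i, (y i * (1 - c - y i) / R - y i) = R - δ := by
    have h1 : ∑ i, (y i * (1 - c - y i) / R - y i) = ((1 - c) * ∑ i, y i - ∑ i, y i ^ 2) / R - ∑ i, y i := by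
      rw [Finset.sum_sub_distrib, ← Finset.sum_div, Finset.mul_sum, ← Finset.sum_sub_distrib]
      congr 2
      apply Finset.sum_congr rfl
      intro i _
      ring
    rw [h1, hysum, ← hQ, ← hR2]
    field_simp
  have hE0 : ∀ i, 0 ≤ y i * (1 - c - y i) / R - y i := by
    intro i
    have h1 : R ≤ 1 - c - y i := by
      have := hyδ i
      linarith
    have h2 : y i ≤ y i * (1 - c - y i) / R := by
      rw [le_div_iff₀ hRpos]
      exact mul_le_mul_of_nonneg_left h1 (hy0 i)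
    linarith
  refine ⟨y, R, fun i => ⟨hy0 i, hyα i, hyδ i⟩, hysum, by rw [hR2, hQ], hRl, hRK, ?_, hsumE⟩
  intro i
  refine ⟨hE0 i, ?_⟩
  rw [← hsumE]
  exact Finset.single_le_sum (f := fun i => y i * (1 - c - y i) / R - y i) (s := Finset.univ)
    (fun j _ => hE0 j) (Finset.mem_univ i)

end Pool.Agent.Work.MP_1ce445_red
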