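import Pool.Agent.Work.MP_1ce445_red.Interface

/-!
The real inequality above `1/2` for MP_1ce445_co, block IND.
-/

namespace Pool.Agent.Work.MP_1ce445_red

open Finset Pool.Agent.Work.MP_1ce445_hub

theorem stmt_IND : Stmt_IND := by
  intro m c δ K a0 ρ0 d0 α ρ d r z ζ y R hU hD hM hy hys hR2 hR
  obtain ⟨b, hb⟩ : ∃ b, b = ∑ j, α j := ⟨_, rfl⟩
  have hαb : ∀ i, α i ≤ b := fun i => by
    rw [hb]; exact single_le_sum (fun j _ => hD.al j) (mem_univ i)
  have hsa := hD.suma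
  rw [← hb] at hsa ⊢
  have htau := hM.tau
  have hx2 := hM.x2
  have hu1 := hU.u1
  have hu3 := hU.u3
  have hK := hU.Kp
  have h2b : 2 * b + (a0 + ρ0) ≤ 1 - c := by linarith
  refine ⟨fun i => ?_, ?_⟩
  · have h1 := hD.ind i
    have e1 : (a0 + ρ0) * (d i - (y i * (1 - c - y i) / R - y i)) =
        (a0 + ρ0) * d i - y i * (1 - c - y i) * ((a0 + ρ0) / R) + (a0 + ρ0) * y i := by
      field_simp
      ring
    rw [e1]
    have h2 : 0 ≤ (α i - y i) * (1 - c - α i - y i - (a0 + ρ0)) :=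
      mul_nonneg (by linarith [(hy i).2.1]) (by linarith [(hy i).2.1, hαb i])
    have h3 : 0 ≤ ρ i * (b - α i) := mul_nonneg (hD.rh i) (by linarith [hαb i])
    nlinarith
  · have h1 := hD.tot
    have h2 : ∑ i, (1 - c - α i - ρ i) * α i = (1 - c) * b - ∑ i, α i ^ 2 - ∑ i, ρ i * α i := by
      rw [hb, mul_sum, ← sum_sub_distrib, ← sum_sub_distrib]
      exact sum_congr rfl fun i _ => by ring
    rw [h2] at h1
    have h3 : ∑ i, ρ i * α i ≤ b * ∑ i, ρ i := by
      rw [mul_sum]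
      exact sum_le_sum fun i _ => by nlinarith [hD.rh i, hαb i]
    have h4 : ∑ i, α i ^ 2 ≤ ∑ i, y i ^ 2 + 2 * b * (b - δ) := by
      have h5 : ∀ i, α i ^ 2 ≤ y i ^ 2 + 2 * b * (α i - y i) := fun i => by
        nlinarith [(hy i).2.1, hαb i, (hy i).1]
      calc ∑ i, α i ^ 2 ≤ ∑ i, (y i ^ 2 + 2 * b * (α i - y i)) := sum_le_sum fun i _ => h5 i
        _ = ∑ i, y i ^ 2 + 2 * b * (b - δ) := by
          rw [sum_add_distrib, ← mul_sum, sum_sub_distrib, hys, ← hb]
    have h6 : b - δ = r - a0 + ζ := by linarith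
    rw [h6] at h4
    have h7 : b = δ + r + ζ - a0 := by linarith
    have h8 : (1 - c) * b = (1 - c) * (δ + r + ζ - a0) := by rw [h7]
    rw [hR2]
    nlinarith

end Pool.Agent.Work.MP_1ce445_red
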