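import Pool.Agent.Work.MP_1ce445_red.Interface

/-! MP_1ce445_co, block PRE. -/

namespace Pool.Agent.Work.MP_1ce445_red

open Finset Pool.Agent.Work.MP_1ce445_hub

theorem PRE_max (a : ℝ) : max a 0 = a + max (-a) 0 := by
  rcases le_total 0 a with h | h
  · rw [max_eq_left h, max_eq_right (by linarith)]
    ring
  · rw [max_eq_right h, max_eq_left (by linarith)]
    ring

theorem PRE_mul (D a ρ : ℝ) : (D - max a 0 - ρ) * max a 0 = (D - a - ρ) * max a 0 := by
  rcases le_total 0 a with h | h
  · rw [max_eq_left h]
  · rw [max_eq_right h]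
    ring

theorem stmt_PRE : Stmt_PRE := by
  intro m c δ a ρ d r z hδ hm hR
  obtain ⟨h, hh⟩ := Finite.exists_max a
  have hs : ∑ j, a j = δ + r + z := by
    rw [hR.suma]
    linarith
  have hpos : 0 < a h := by
    by_contra hcon
    have hle : ∀ j, a j ≤ 0 := fun j => (hh j).trans (not_lt.mp hcon)
    have h1 : ∑ j, a j ≤ 0 := Finset.sum_nonpos (fun j _ => hle j)
    have h2 := hR.rpos
    have h3 := hR.zpos
    linarith
  have hM : ∑ j, max (a j) 0 = δ + r + (z + ∑ j, max (-a j) 0) := by
    rw [Finset.sum_congr rfl (fun j _ => PRE_max (a j)), Finset.sum_add_distrib, hs]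
    ring
  have ht : a h ≤ r := by
    have h1 := hR.rj1 h
    have h2 := hR.dpos h
    linarith
  have hn := hR.npos h
  refine ⟨h, z + ∑ j, max (-a j) 0, ?_⟩
  refine
    { zpos := hR.zpos
      zz := ?_
      r0 := hR.rho h
      rh := fun i => hR.rho _
      al := fun i => le_max_right _ _
      ala := fun i => max_le (hh _) hpos.le
      a0p := hpos
      d0p := hR.dpos h
      dp := fun i => hR.dpos _
      t := ht
      n0 := by linarith
      suma := ?_
      sumd := ?_
      tot := ?_
      ind := ?_ }
  · have h1 : 0 ≤ ∑ j, max (-a j) 0 := Finset.sum_nonneg (fun j _ => le_max_right _ _)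
    linarith
  · rw [Fin.sum_univ_succAbove _ h, max_eq_left hpos.le] at hM
    exact hM
  · have h1 := hR.sumd
    rw [Fin.sum_univ_succAbove _ h] at h1
    linarith
  · have h1 := hR.tot
    rw [Fin.sum_univ_succAbove _ h, max_eq_left hpos.le] at h1
    refine le_trans (le_of_eq ?_) h1
    congr 1
    exact Finset.sum_congr rfl (fun i _ => PRE_mul _ _ _)
  · intro i
    have hd := hR.dpos (h.succAbove i)
    have hr := hR.rho h
    have hI := hR.ind h (h.succAbove i) (Fin.succAbove_ne h i)
    rcases le_total 0 (a (h.succAbove i)) with hc | hc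
    · have e : max (a (h.succAbove i)) 0 = a (h.succAbove i) := max_eq_left hc
      simp only [e] at hI ⊢
      exact hI
    · have e : max (a (h.succAbove i)) 0 = 0 := max_eq_right hc
      simp only [e]
      have p1 : 0 ≤ (a h + ρ h) * (0 + d (h.succAbove i)) :=
        mul_nonneg (by linarith) (by linarith)
      have p2 : 0 ≤ (1 - c - a h - ρ h) * (r - a h) := mul_nonneg hn (by linarith)
      linarith

end Pool.Agent.Work.MP_1ce445_red
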