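import Pool.Agent.Work.MP_1ce445_red.Interface

/-! Block QUB of MP_1ce445_co (windows above `1/2`): the lower bound for `r + ρ/2`. -/

namespace Pool.Agent.Work.MP_1ce445_red

open Finset Pool.Agent.Work.MP_1ce445_hub

theorem stmt_QUB (h1 : Pool.Agent.Work.MP_1ce445_upg.Stmt_QUA) : Stmt_QUB := by
  intro m c δ K a ρ d r z hW hU hR
  have hm : (0 : ℝ) < (m : ℝ) := by
    have : 2 ≤ m := hW.hm
    have h2 : (2 : ℝ) ≤ (m : ℝ) := by exact_mod_cast this
    linarith
  have hD : 0 < 1 - c := by have := hU.c1; linarith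
  have hsum : ∑ j, a j = δ + r + z := by
    rw [hR.suma]
    have := hW.dc
    linarith
  have hr1 : r ≤ 1 := by
    have h2 : ∑ j, a j ≤ ∑ _j : Fin (m + 1), (1 - c) := by
      refine Finset.sum_le_sum (fun j _ => ?_)
      have := hR.npos j
      have := hR.rho j
      linarith
    rw [Finset.sum_const, Finset.card_univ, Fintype.card_fin, nsmul_eq_mul, hsum] at h2
    push_cast at h2
    have := hW.dc
    have := hR.zpos
    linarith
  have hq := h1 (univ : Finset (Fin (m + 1))) a ρ (1 - c) r z δ 0 hD hR.rpos hr1 hR.zpos hU.dl.le le_rfl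
    (fun j _ => hR.rho j) hsum (fun j _ => by
      have := hR.rj1 j
      have := hR.dpos j
      linarith) (by
      have := hR.tot
      rw [add_zero]
      linarith)
  rw [Real.sqrt_zero, add_zero] at hq
  refine le_trans ?_ hq
  refine Real.le_sqrt_of_sq_le ?_
  have he := hU.e
  have h2 := hU.u2
  have h3 : δ * (1 - c - δ) = K ^ 2 - δ ^ 2 * (1 - 1 / (m : ℝ)) := by
    have : δ * (1 - c - δ) = (1 - c) * δ - δ ^ 2 := by ring
    rw [this, he]
    ring
  rw [h3]
  nlinarith [sq_nonneg K]

end Pool.Agent.Work.MP_1ce445_red
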