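import Pool.Agent.Work.MP_1ce445_red.Interface

/-! # Block SM2 (MP_1ce445_co, RED) (helper1) -/

namespace Pool.Agent.Work.MP_1ce445_red

open Finset Pool.Agent.Work.MP_1ce445_hub

theorem SM2_low (v : ℝ) (h0 : 0 ≤ v) (h1 : v ≤ 9 / 100) :
    Real.exp (-(v + 55 / 100 * v ^ 2)) ≤ 1 - v := by
  have hw : (0 : ℝ) ≤ v + 55 / 100 * v ^ 2 := by positivity
  have h := Real.quadratic_le_exp_of_nonneg hw
  have h2 : 1 ≤ (1 - v) * (1 + (v + 55 / 100 * v ^ 2) + (v + 55 / 100 * v ^ 2) ^ 2 / 2) := by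
    have e : (1 - v) * (1 + (v + 55 / 100 * v ^ 2) + (v + 55 / 100 * v ^ 2) ^ 2 / 2) =
        1 + v ^ 2 * (1 / 20 - 1 / 2 * v - 319 / 800 * v ^ 2 - 121 / 800 * v ^ 3) := by ring
    rw [e]
    have h3 : v ^ 2 ≤ (9 / 100) ^ 2 := by nlinarith
    have h4 : v ^ 3 ≤ (9 / 100) ^ 3 := by
      have : v ^ 3 = v * v ^ 2 := by ring
      rw [this]
      nlinarith [sq_nonneg v]
    have h5 : 0 ≤ 1 / 20 - 1 / 2 * v - 319 / 800 * v ^ 2 - 121 / 800 * v ^ 3 := by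
      norm_num at h3 h4
      linarith
    nlinarith [mul_nonneg (sq_nonneg v) h5]
  have h3 : 1 ≤ (1 - v) * Real.exp (v + 55 / 100 * v ^ 2) :=
    h2.trans (mul_le_mul_of_nonneg_left h (by linarith))
  have h4 : Real.exp (-(v + 55 / 100 * v ^ 2)) * Real.exp (v + 55 / 100 * v ^ 2) = 1 := by
    rw [← Real.exp_add]; simp
  have h5 : 0 < Real.exp (v + 55 / 100 * v ^ 2) := Real.exp_pos _
  by_contra hn
  push Not at hn
  have := mul_lt_mul_of_pos_right hn h5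
  linarith

theorem SM2_up (X : ℝ) (h0 : 0 ≤ X) (h1 : X ≤ 1) : 1 - X ≤ Real.exp (-(X + X ^ 2 / 2)) := by
  rcases eq_or_lt_of_le h1 with rfl | h
  · simp only [sub_self]
    exact (Real.exp_pos _).le
  · have h2 : |X| < 1 := by rw [abs_of_nonneg h0]; exact h
    have h3 := Real.hasSum_pow_div_log_of_abs_lt_one h2
    have h4 := sum_le_hasSum (range 2) (fun i _ => by positivity) h3
    simp only [sum_range_succ, sum_range_zero] at h4
    norm_num at h4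
    have h5 : Real.log (1 - X) ≤ -(X + X ^ 2 / 2) := by
      linarith
    have h6 : 0 < 1 - X := by linarith
    calc 1 - X = Real.exp (Real.log (1 - X)) := (Real.exp_log h6).symm
      _ ≤ _ := Real.exp_le_exp.2 h5

/-- the right side -/
theorem SM2_right (c δ K : ℝ) (hc : c = (2 - δ) / 3) (hd : 0 < δ) (hK : 0 < K)
    (h1 : δ ≤ 348 / 1000 * K) (h5 : K ≤ 1137 / 10000) (h3 : 3 * K ^ 2 ≤ δ) :
    (2 / 3) ^ 3 * Real.exp (-(3 / 2 * K + (1 / 60 * K ^ 2 + 99 / 160 * (K * (1 - K)) ^ 2))) ≤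
      c * (c - (K - δ) / 2) ^ 2 := by
  set u : ℝ := (3 * K - δ) / 4 with hu
  have hu0 : 0 ≤ u := by rw [hu]; linarith
  have hu1 : u ≤ 3 / 4 * (K * (1 - K)) := by rw [hu]; nlinarith
  have hu2 : u ≤ 9 / 100 := by rw [hu]; linarith
  have e1 := SM2_low (δ / 2) (by linarith) (by linarith)
  have e2 := SM2_low u hu0 hu2
  have e3 : c * (c - (K - δ) / 2) ^ 2 = (2 / 3) ^ 3 * ((1 - δ / 2) * (1 - u) ^ 2) := by
    rw [hc, hu]; ring
  rw [e3]
  apply mul_le_mul_of_nonneg_left _ (by norm_num)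
  have e4 : (Real.exp (-(u + 55 / 100 * u ^ 2))) ^ 2 ≤ (1 - u) ^ 2 :=
    pow_le_pow_left₀ (Real.exp_pos _).le e2 2
  have e5 : Real.exp (-(δ / 2 + 55 / 100 * (δ / 2) ^ 2)) *
      (Real.exp (-(u + 55 / 100 * u ^ 2))) ^ 2 ≤ (1 - δ / 2) * (1 - u) ^ 2 :=
    mul_le_mul e1 e4 (by positivity) (by linarith)
  refine le_trans ?_ e5
  rw [← Real.exp_nat_mul, ← Real.exp_add, Real.exp_le_exp]
  have g1 : δ ^ 2 ≤ (348 / 1000 * K) ^ 2 := pow_le_pow_left₀ hd.le h1 2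
  have g2 : u ^ 2 ≤ (3 / 4 * (K * (1 - K))) ^ 2 := pow_le_pow_left₀ hu0 hu1 2
  have g3 : δ / 2 + 2 * u = 3 / 2 * K := by rw [hu]; ring
  push_cast
  nlinarith [sq_nonneg K]

theorem stmt_SM2 : Stmt_SM2 := by
  intro c δ K r z ρ hW hU hr hz hρ h2 h3 h4
  have hdc := hW.dc
  have he := hU.e
  push_cast at hdc he
  have hd := hU.dl
  have hK := hU.Kp
  have hu1 := hU.u1
  have hu5 := hU.u5
  have hc : c = (2 - δ) / 3 := by linarith
  have h3K : 3 * K ^ 2 ≤ δ := by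
    rw [hc] at he
    nlinarith [sq_nonneg δ]
  refine le_trans ?_ (SM2_right c δ K hc hd hK hu1 hu5 h3K)
  set X : ℝ := (r - z) / 2 with hX
  have hX1 : X ≤ 1 := by rw [hX]; linarith
  have e1 : ((2 - r + z) / 3) ^ 3 * Real.exp (-(ρ + 2 * z)) =
      (2 / 3) ^ 3 * ((1 - X) ^ 3 * Real.exp (-(ρ + 2 * z))) := by
    rw [hX]; ring
  rw [e1]
  apply mul_le_mul_of_nonneg_left _ (by norm_num)
  have k1 : 0 ≤ 1137 / 10000 - K := by linarith
  have k2 : K * (1 - K) ^ 2 ≤ 90 / 1000 := by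
    nlinarith [mul_nonneg k1 hK.le, mul_nonneg k1 k1, mul_nonneg (mul_nonneg k1 hK.le) hK.le]
  by_cases hs : 104 / 100 * K ≤ r + 2 / 3 * ρ + 1 / 3 * z
  · have e2 : 1 - X ≤ Real.exp (-X) := Real.one_sub_le_exp_neg X
    have e3 : (1 - X) ^ 3 ≤ (Real.exp (-X)) ^ 3 := pow_le_pow_left₀ (by linarith) e2 3
    refine (mul_le_mul_of_nonneg_right e3 (Real.exp_pos _).le).trans ?_
    rw [← Real.exp_nat_mul, ← Real.exp_add, Real.exp_le_exp]
    push_cast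
    have g1 : 1 / 60 * K ^ 2 + 99 / 160 * (K * (1 - K)) ^ 2 ≤ 6 / 100 * K := by
      have : 1 / 60 * K ^ 2 + 99 / 160 * (K * (1 - K)) ^ 2 =
          K * (1 / 60 * K + 99 / 160 * (K * (1 - K) ^ 2)) := by ring
      rw [this]
      have : 1 / 60 * K + 99 / 160 * (K * (1 - K) ^ 2) ≤ 6 / 100 := by linarith
      nlinarith
    rw [hX]
    linarith
  · push Not at hs
    have hX0 : 378 / 1000 * K ≤ X := by rw [hX]; linarith
    have hX00 : 0 ≤ X := by linarith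
    have e2 : 1 - X ≤ Real.exp (-(X + X ^ 2 / 2)) := SM2_up X hX00 hX1
    have e3 : (1 - X) ^ 3 ≤ (Real.exp (-(X + X ^ 2 / 2))) ^ 3 :=
      pow_le_pow_left₀ (by linarith) e2 3
    refine (mul_le_mul_of_nonneg_right e3 (Real.exp_pos _).le).trans ?_
    rw [← Real.exp_nat_mul, ← Real.exp_add, Real.exp_le_exp]
    push_cast
    have g0 : (378 / 1000 * K) ^ 2 ≤ X ^ 2 := pow_le_pow_left₀ (by positivity) hX0 2
    have g1 : 1 / 60 * K ^ 2 + 99 / 160 * (K * (1 - K)) ^ 2 ≤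
        45 / 1000 * K + 3 / 2 * (378 / 1000 * K) ^ 2 := by
      have : 45 / 1000 * K + 3 / 2 * (378 / 1000 * K) ^ 2 -
          (1 / 60 * K ^ 2 + 99 / 160 * (K * (1 - K)) ^ 2) =
          K * (45 / 1000 + (3 / 2 * (378 / 1000) ^ 2 - 1 / 60) * K -
            99 / 160 * (K * (1 - K) ^ 2)) := by ring
      have h7 : 0 ≤ 45 / 1000 + (3 / 2 * (378 / 1000) ^ 2 - 1 / 60) * K -
            99 / 160 * (K * (1 - K) ^ 2) := by
        have h8 : K * (1 - K) ^ 2 ≤ K * (1 - K) := by nlinarith [mul_nonneg hK.le hK.le]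
        nlinarith [mul_nonneg k1 hK.le, mul_nonneg k1 k1]
      nlinarith
    have g2 : 3 * X + (ρ + 2 * z) = 3 / 2 * (r + 2 / 3 * ρ + 1 / 3 * z) := by rw [hX]; ring
    nlinarith

end Pool.Agent.Work.MP_1ce445_red
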