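import Pool.Agent.Work.MP_1ce445_red.Interface

/-! Block SM3 of MP_1ce445_red. -/

namespace Pool.Agent.Work.MP_1ce445_red

open Finset Pool.Agent.Work.MP_1ce445_hub

theorem SM3_exp (v : ℝ) (h0 : 0 ≤ v) (h1 : v ≤ 1 / 2) : Real.exp (-(v + v ^ 2)) ≤ 1 - v := by
  have hw : 0 ≤ v + v ^ 2 := by positivity
  have hq := Real.quadratic_le_exp_of_nonneg hw
  have hE : 0 < Real.exp (v + v ^ 2) := Real.exp_pos _
  have hv : 0 < 1 - v := by linarith
  have h2 : 1 ≤ (1 - v) * Real.exp (v + v ^ 2) := by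
    have h3 : (1 - v) * (1 + (v + v ^ 2) + (v + v ^ 2) ^ 2 / 2) ≤ (1 - v) * Real.exp (v + v ^ 2) :=
      mul_le_mul_of_nonneg_left hq hv.le
    have h4 : (1 - v) * (1 + (v + v ^ 2) + (v + v ^ 2) ^ 2 / 2) =
        1 + v ^ 2 / 2 * (1 - v - v ^ 2 - v ^ 3) := by ring
    have h5 : 0 ≤ v ^ 2 / 2 * (1 - v - v ^ 2 - v ^ 3) := by
      refine mul_nonneg (by positivity) ?_
      have h6 : v ^ 2 ≤ 1 / 4 := by nlinarith
      have h7 : v ^ 3 ≤ 1 / 8 := by
        have : v ^ 3 = v * v ^ 2 := by ring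
        rw [this]
        nlinarith [sq_nonneg v]
      linarith
    linarith
  rw [Real.exp_neg, inv_le_iff_one_le_mul₀ hE]
  linarith

theorem stmt_SM3 : Stmt_SM3 := by
  intro m c δ K r z ρ hm hW hU hr hz hρ hb hs
  obtain ⟨M, hM⟩ : ∃ M : ℝ, M = (m : ℝ) := ⟨_, rfl⟩
  have hM3 : (3 : ℝ) ≤ M := by rw [hM]; exact_mod_cast hm
  have hM0 : 0 < M := by linarith
  have hK0 : 0 < K := hU.Kp
  have hδ0 : 0 < δ := hU.dl
  have hδK := hU.u1
  have hK1 := hU.u5
  have hdc : (M + 1) * (1 - c) = 1 + δ := by rw [hM]; exact hW.dc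
  -- the bound for (M+1)/M^2 * K
  have hA : (M + 1) / M ^ 2 * K ≤ 25 / 1000 := by
    rcases hW.win with ⟨h2, _⟩ | ⟨h3, hd⟩ | ⟨h4, _, hk⟩
    · omega
    · have hM' : M = 3 := by rw [hM, h3]; norm_num
      have hd' : δ ≤ 98 / 10000 := by linarith
      have hK2 : K ^ 2 = δ * (1 - c - δ / M) := by rw [hM]; exact hW.K2
      rw [hM'] at hK2 hdc ⊢
      have hc : c = 1 - (1 + δ) / 4 := by linarith
      have hK3 : K ^ 2 ≤ 245 / 100000 := by
        rw [hK2, hc]; nlinarith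
      have hK4 : K ≤ 495 / 10000 := by
        by_contra hcon
        push Not at hcon
        nlinarith
      norm_num
      linarith
    · have hM4 : (4 : ℝ) ≤ M := by rw [hM]; exact_mod_cast h4
      rw [← hM] at hk
      have h5 : K ≤ 1 / 32 := by
        refine hk.trans ?_
        rw [div_le_div_iff₀ (by positivity) (by norm_num)]
        nlinarith
      have h6 : (M + 1) / M ^ 2 ≤ 5 / 16 := by
        rw [div_le_div_iff₀ (by positivity) (by norm_num)]
        nlinarith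
      calc (M + 1) / M ^ 2 * K ≤ 5 / 16 * (1 / 32) :=
            mul_le_mul h6 h5 hK0.le (by norm_num)
        _ ≤ 25 / 1000 := by norm_num
  obtain ⟨q, hq⟩ : ∃ q : ℝ, q = M / (M + 1) := ⟨_, rfl⟩
  have hq0 : 0 < q := by rw [hq]; positivity
  obtain ⟨X, hX⟩ : ∃ X : ℝ, X = (r - z) / M := ⟨_, rfl⟩
  obtain ⟨w, hw⟩ : ∃ w : ℝ, w = δ / M := ⟨_, rfl⟩
  obtain ⟨u, hu⟩ : ∃ u : ℝ, u = ((M + 1) * K - δ) / M ^ 2 := ⟨_, rfl⟩
  have hbase : (M - r + z) / (M + 1) = q * (1 - X) := by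
    rw [hq, hX]; field_simp; ring
  have hc1 : c = q * (1 - w) := by
    have : c = (M - δ) / (M + 1) := by
      rw [eq_div_iff (by positivity)]; linarith
    rw [this, hq, hw]; field_simp
  have hc2 : c - (K - δ) / M = q * (1 - u) := by
    have : c = (M - δ) / (M + 1) := by
      rw [eq_div_iff (by positivity)]; linarith
    rw [this, hq, hu]; field_simp; ring
  have hw0 : 0 ≤ w := by rw [hw]; positivity
  have hw1 : w ≤ 1 / 2 := by
    rw [hw, div_le_iff₀ hM0]; nlinarith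
  have hu0 : 0 ≤ u := by
    rw [hu]; refine div_nonneg ?_ (by positivity); nlinarith
  have huK : u ≤ (M + 1) / M ^ 2 * K := by
    rw [hu, div_mul_eq_mul_div]
    exact div_le_div_of_nonneg_right (by linarith) (by positivity)
  have hu1 : u ≤ 1 / 2 := by linarith
  have hwE := SM3_exp w hw0 hw1
  have huE := SM3_exp u hu0 hu1
  have hL0 : 0 ≤ (M - r + z) / (M + 1) := by
    refine div_nonneg ?_ (by positivity)
    rw [hM]; exact hb
  have hL1 : (M - r + z) / (M + 1) ≤ q * Real.exp (-X) := by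
    rw [hbase]
    refine mul_le_mul_of_nonneg_left ?_ hq0.le
    have := Real.add_one_le_exp (-X)
    linarith
  have hexp : w + w ^ 2 + M * (u + u ^ 2) ≤ (M + 1) * X + ρ + 2 * z := by
    have e1 : w + M * u = (M + 1) / M * K := by
      rw [hw, hu]; field_simp; ring
    have e2 : (M + 1) * X + ρ + 2 * z =
        (M + 1) / M * (r + 2 / 3 * ρ + 1 / 3 * z) + (1 - 2 / 3 * ((M + 1) / M)) * ρ +
          (2 - 4 / 3 * ((M + 1) / M)) * z := by
      rw [hX]; field_simp; ring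
    have hf : (M + 1) / M ≤ 4 / 3 := by
      rw [div_le_div_iff₀ hM0 (by norm_num)]; linarith
    have hf1 : 0 < (M + 1) / M := by positivity
    have e3 : (M + 1) / M * (103 / 100 * K) ≤ (M + 1) * X + ρ + 2 * z := by
      rw [e2]
      have g1 : (M + 1) / M * (103 / 100 * K) ≤ (M + 1) / M * (r + 2 / 3 * ρ + 1 / 3 * z) :=
        mul_le_mul_of_nonneg_left hs.le hf1.le
      have g2 : 0 ≤ (1 - 2 / 3 * ((M + 1) / M)) * ρ := mul_nonneg (by linarith) hρ
      have g3 : 0 ≤ (2 - 4 / 3 * ((M + 1) / M)) * z := mul_nonneg (by linarith) hz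
      linarith
    have e4 : M * u ^ 2 ≤ (M + 1) / M * (25 / 1000 * K) := by
      have g1 : M * u ^ 2 = M * u * u := by ring
      have g2 : M * u ≤ (M + 1) / M * K := by linarith [e1, hw0]
      have g3 : u ≤ 25 / 1000 := huK.trans hA
      have g4 : M * u * u ≤ (M + 1) / M * K * (25 / 1000) :=
        mul_le_mul g2 g3 hu0 (by positivity)
      rw [g1]; linarith
    have e5 : w ^ 2 ≤ (M + 1) / M * (5 / 1000 * K) := by
      have g0 : w ≤ 116 / 1000 * K := by
        rw [hw, div_le_iff₀ hM0]; nlinarith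
      have g1 : w ^ 2 ≤ 116 / 1000 * K * (116 / 1000 * K) := by
        rw [sq]; exact mul_le_mul g0 g0 hw0 (by positivity)
      have g2 : 116 / 1000 * K * (116 / 1000 * K) ≤ 1 * (5 / 1000 * K) := by nlinarith
      have g3 : 1 ≤ (M + 1) / M := by
        rw [le_div_iff₀ hM0]; linarith
      have g4 : 1 * (5 / 1000 * K) ≤ (M + 1) / M * (5 / 1000 * K) :=
        mul_le_mul_of_nonneg_right g3 (by positivity)
      linarith
    have e6 : w + w ^ 2 + M * (u + u ^ 2) = (w + M * u) + w ^ 2 + M * u ^ 2 := by ring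
    rw [e6, e1]
    have e7 : (M + 1) / M * (103 / 100 * K) =
        (M + 1) / M * K + (M + 1) / M * (5 / 1000 * K) + (M + 1) / M * (25 / 1000 * K) := by ring
    linarith
  have hLHS : ((M - r + z) / (M + 1)) ^ (m + 1) * Real.exp (-(ρ + 2 * z)) ≤
      q ^ (m + 1) * Real.exp (-((M + 1) * X + ρ + 2 * z)) := by
    have g1 : ((M - r + z) / (M + 1)) ^ (m + 1) ≤ (q * Real.exp (-X)) ^ (m + 1) :=
      pow_le_pow_left₀ hL0 hL1 _
    have g2 : (q * Real.exp (-X)) ^ (m + 1) * Real.exp (-(ρ + 2 * z)) =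
        q ^ (m + 1) * Real.exp (-((M + 1) * X + ρ + 2 * z)) := by
      rw [mul_pow, ← Real.exp_nat_mul, mul_assoc, ← Real.exp_add]
      congr 2
      rw [hM]; push_cast; ring
    rw [← g2]
    exact mul_le_mul_of_nonneg_right g1 (Real.exp_pos _).le
  have hRHS : q ^ (m + 1) * Real.exp (-(w + w ^ 2 + M * (u + u ^ 2))) ≤
      c * (c - (K - δ) / M) ^ m := by
    have g1 : q * Real.exp (-(w + w ^ 2)) ≤ c := by
      rw [hc1]; exact mul_le_mul_of_nonneg_left hwE hq0.le
    have g2 : q * Real.exp (-(u + u ^ 2)) ≤ c - (K - δ) / M := by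
      rw [hc2]; exact mul_le_mul_of_nonneg_left huE hq0.le
    have g3 : (q * Real.exp (-(u + u ^ 2))) ^ m ≤ (c - (K - δ) / M) ^ m :=
      pow_le_pow_left₀ (by positivity) g2 _
    have g4 : q ^ (m + 1) * Real.exp (-(w + w ^ 2 + M * (u + u ^ 2))) =
        q * Real.exp (-(w + w ^ 2)) * (q * Real.exp (-(u + u ^ 2))) ^ m := by
      rw [mul_pow, ← Real.exp_nat_mul, pow_succ]
      have : Real.exp (-(w + w ^ 2 + M * (u + u ^ 2))) =
          Real.exp (-(w + w ^ 2)) * Real.exp ((m : ℝ) * (-(u + u ^ 2))) := by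
        rw [← Real.exp_add]; congr 1; rw [hM]; ring
      rw [this]; ring
    rw [g4]
    have hc0 : 0 ≤ c := le_trans (by positivity) g1
    exact mul_le_mul g1 g3 (by positivity) hc0
  rw [← hM]
  refine hLHS.trans (le_trans ?_ hRHS)
  refine mul_le_mul_of_nonneg_left (Real.exp_le_exp.mpr (by linarith)) (by positivity)

end Pool.Agent.Work.MP_1ce445_red
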