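import Pool.Agent.Work.MP_1ce445_red.Interface

/-!
Block TNG of MP_1ce445_red: tangents.
-/

namespace Pool.Agent.Work.MP_1ce445_red

open Finset Pool.Agent.Work.MP_1ce445_hub

theorem TNG_one (a s : ℝ) (ha : 0 < a) : a - s ≤ a * Real.exp (-(s / a)) := by
  have h1 := Real.add_one_le_exp (-(s / a))
  have h2 : a * (-(s / a) + 1) = a - s := by
    field_simp
    ring
  rw [← h2]
  exact mul_le_mul_of_nonneg_left h1 ha.le

theorem stmt_TNG : Stmt_TNG := by
  intro m c d0 P z d e hc h0 hd he hE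
  have h1 := TNG_one c d0 hc
  have h2 : ∀ i, c - d i ≤ (c - e i) * Real.exp (-((d i - e i) / (c - e i))) := by
    intro i
    have := TNG_one (c - e i) (d i - e i) (by linarith [he i])
    have h3 : c - e i - (d i - e i) = c - d i := by ring
    rwa [h3] at this
  have h3 : ∏ i, (c - d i) ≤ ∏ i, ((c - e i) * Real.exp (-((d i - e i) / (c - e i)))) :=
    Finset.prod_le_prod (fun i _ => by linarith [hd i]) (fun i _ => h2 i)
  rw [Finset.prod_mul_distrib, ← Real.exp_sum] at h3
  have hpd : 0 ≤ ∏ i, (c - d i) := Finset.prod_nonneg (fun i _ => by linarith [hd i])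
  have hpe : 0 ≤ ∏ i, (c - e i) := Finset.prod_nonneg (fun i _ => by linarith [he i])
  have h4 : (c - d0) * ∏ i, (c - d i) ≤ (c * Real.exp (-(d0 / c))) *
      ((∏ i, (c - e i)) * Real.exp (∑ i, -((d i - e i) / (c - e i)))) :=
    mul_le_mul h1 h3 hpd (mul_nonneg hc.le (Real.exp_pos _).le)
  have h5 : (c - d0) * (∏ i, (c - d i)) * Real.exp (-(P + 2 * z)) ≤
      (c * Real.exp (-(d0 / c))) *
      ((∏ i, (c - e i)) * Real.exp (∑ i, -((d i - e i) / (c - e i)))) *
        Real.exp (-(P + 2 * z)) :=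
    mul_le_mul_of_nonneg_right h4 (Real.exp_pos _).le
  have h6 : (c * Real.exp (-(d0 / c))) *
      ((∏ i, (c - e i)) * Real.exp (∑ i, -((d i - e i) / (c - e i)))) *
        Real.exp (-(P + 2 * z)) =
      (c * ∏ i, (c - e i)) * Real.exp (-(d0 / c) + ∑ i, -((d i - e i) / (c - e i)) +
        -(P + 2 * z)) := by
    rw [Real.exp_add, Real.exp_add]
    ring
  have h7 : -(d0 / c) + ∑ i, -((d i - e i) / (c - e i)) + -(P + 2 * z) =
      -((d0 + ∑ i, (d i - e i) + ∑ i, e i / (c - e i) * (d i - e i) + c * (P + 2 * z)) / c) := by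
    rw [eq_comm, neg_eq_iff_eq_neg, div_eq_iff hc.ne', Finset.sum_neg_distrib]
    have h8 : ∑ i, (d i - e i) + ∑ i, e i / (c - e i) * (d i - e i) =
        c * ∑ i, (d i - e i) / (c - e i) := by
      rw [← Finset.sum_add_distrib, Finset.mul_sum]
      apply Finset.sum_congr rfl
      intro i _
      have h9 : c - e i ≠ 0 := by
        have := he i
        intro h
        linarith
      field_simp
      ring
    rw [add_assoc d0, h8]
    field_simp
    ring
  rw [h6, h7] at h5
  refine h5.trans ?_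
  have h10 : Real.exp (-((d0 + ∑ i, (d i - e i) + ∑ i, e i / (c - e i) * (d i - e i) +
      c * (P + 2 * z)) / c)) ≤ 1 := by
    apply Real.exp_le_one_iff.2
    have := div_nonneg hE hc.le
    linarith
  calc (c * ∏ i, (c - e i)) * Real.exp (-((d0 + ∑ i, (d i - e i) +
        ∑ i, e i / (c - e i) * (d i - e i) + c * (P + 2 * z)) / c)) ≤
        (c * ∏ i, (c - e i)) * 1 :=
        mul_le_mul_of_nonneg_left h10 (mul_nonneg hc.le hpe)
    _ = c * ∏ i, (c - e i) := mul_one _

end Pool.Agent.Work.MP_1ce445_red
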