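import Pool.Agent.Work.MP_1ce445_red.UNI
import Pool.Agent.Work.MP_1ce445_red.PRE
import Pool.Agent.Work.MP_1ce445_red.QUB
import Pool.Agent.Work.MP_1ce445_red.SM3
import Pool.Agent.Work.MP_1ce445_red.SM2
import Pool.Agent.Work.MP_1ce445_red.BOO
import Pool.Agent.Work.MP_1ce445_red.HUV
import Pool.Agent.Work.MP_1ce445_red.IND
import Pool.Agent.Work.MP_1ce445_red.COF
import Pool.Agent.Work.MP_1ce445_red.APR
import Pool.Agent.Work.MP_1ce445_red.TNG
import Pool.Agent.Work.MP_1ce445_red.RED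
import Pool.Agent.Work.MP_1ce445_upg.QUA

/-!
The real inequality above `1/2` for MP_1ce445_co without hypotheses.
-/

namespace Pool.Agent.Work.MP_1ce445_red

theorem red : Stmt_RED :=
  stmt_RED stmt_UNI stmt_PRE (stmt_QUB Pool.Agent.Work.MP_1ce445_upg.stmt_QUA) stmt_SM3 stmt_SM2
    stmt_BOO stmt_HUV (stmt_APR stmt_IND stmt_COF) stmt_TNG

end Pool.Agent.Work.MP_1ce445_red
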