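import Pool.Agent.Work.MP_1ce445_red.Interface

/-!
The real inequality above `1/2` for MP_1ce445_co, block RED: the assembly.
-/

namespace Pool.Agent.Work.MP_1ce445_red

open Finset Pool.Agent.Work.MP_1ce445_hub

lemma RED_amgm {ι : Type*} (A : Finset ι) (z : ι → ℝ) (hz : ∀ j ∈ A, 0 ≤ z j) (hA : 0 < A.card) :
    ∏ j ∈ A, z j ≤ ((∑ j ∈ A, z j) / A.card) ^ A.card := by
  have hA' : (0 : ℝ) < A.card := by exact_mod_cast hA
  have h1 := Real.geom_mean_le_arith_mean_weighted A (fun _ => (1 : ℝ) / A.card) z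
    (fun _ _ => by positivity) (by
      rw [sum_const, nsmul_eq_mul]
      field_simp) hz
  have h2 : ∏ j ∈ A, z j = (∏ j ∈ A, z j ^ ((1 : ℝ) / A.card)) ^ A.card := by
    rw [← prod_pow]
    refine prod_congr rfl fun j hj => ?_
    rw [← Real.rpow_natCast, ← Real.rpow_mul (hz j hj)]
    rw [one_div, inv_mul_cancel₀ hA'.ne', Real.rpow_one]
  rw [h2]
  refine pow_le_pow_left₀ (prod_nonneg fun j hj => Real.rpow_nonneg (hz j hj) _) ?_ _
  refine h1.trans (le_of_eq ?_)
  rw [← mul_sum]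
  ring

lemma RED_prod {m : ℕ} {c δ : ℝ} {d : Fin (m + 1) → ℝ} {r z : ℝ} (hc : ((m : ℝ) + 1) * (1 - c) = 1 + δ)
    (hd : ∀ j, d j ≤ c) (hs : r - δ - z ≤ ∑ j, d j) :
    0 ≤ (m : ℝ) - r + z ∧ ∏ j, (c - d j) ≤ (((m : ℝ) - r + z) / (m + 1)) ^ (m + 1) := by
  have h0 : ∀ j ∈ (univ : Finset (Fin (m + 1))), 0 ≤ c - d j := fun j _ => by linarith [hd j]
  have h1 : ∑ j, (c - d j) ≤ (m : ℝ) - r + z := by
    rw [sum_sub_distrib, sum_const, card_univ, Fintype.card_fin, nsmul_eq_mul]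
    push_cast
    linarith
  have h2 : 0 ≤ ∑ j, (c - d j) := sum_nonneg h0
  refine ⟨by linarith, ?_⟩
  have h3 := RED_amgm univ (fun j => c - d j) h0 (by simp)
  rw [card_univ, Fintype.card_fin] at h3
  refine h3.trans ?_
  push_cast
  refine pow_le_pow_left₀ (by positivity) ?_ _
  exact div_le_div_of_nonneg_right h1 (by positivity)

theorem stmt_RED (h1 : Stmt_UNI) (h2 : Stmt_PRE) (h3 : Stmt_QUB) (h4 : Stmt_SM3) (h5 : Stmt_SM2)
    (h6 : Stmt_BOO) (h7 : Stmt_HUV) (h8 : Stmt_APR) (h9 : Stmt_TNG) : Stmt_RED := by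
  intro m c δ K a ρ d r z hW hL hd
  have hU := h1 m c δ K hW
  have hK := hU.Kp
  have hδ := hU.dl
  have hm2 := hW.hm
  have hm : (2 : ℝ) ≤ m := by exact_mod_cast hW.hm
  have hm0 : (0 : ℝ) < m := by linarith
  have hP0 : 0 ≤ ∑ j, ρ j := sum_nonneg fun j _ => hL.rho j
  have hδm : (((m : ℝ) + 1) * (1 - c) - 1) = δ := by linarith [hW.dc]
  have hsd := hL.sumd
  rw [hδm] at hsd
  obtain ⟨hpos, hprod⟩ := RED_prod hW.dc hd hsd
  have hQ := h3 m c δ K a ρ d r z hW hU hL
  rcases lt_or_ge (103 / 100 * K) (r + 2 / 3 * (∑ j, ρ j) + 1 / 3 * z) with hσ | hσ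
  · -- the symmetric hub
    have hsym : ∀ _i : Fin m, δ / m * (1 - c - δ / m) / K - δ / m = (K - δ) / m := fun _ => by
      have e1 : δ / m * (1 - c - δ / m) = K ^ 2 / m := by rw [hW.K2]; ring
      rw [e1]
      field_simp
    refine ⟨fun _ => δ / m, K, fun _ => by positivity, ?_, hK, ?_, ?_⟩
    · rw [sum_const, card_univ, Fintype.card_fin, nsmul_eq_mul]
      field_simp
    · rw [sum_const, card_univ, Fintype.card_fin, nsmul_eq_mul, hW.K2]
      field_simp
    · have e2 : ∏ i : Fin m, (c - (δ / m * (1 - c - δ / m) / K - δ / m)) = (c - (K - δ) / m) ^ m := by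
        rw [prod_congr rfl fun i _ => by rw [hsym i], prod_const, card_univ, Fintype.card_fin]
      rw [e2]
      refine (mul_le_mul_of_nonneg_right hprod (Real.exp_pos _).le).trans ?_
      rcases eq_or_lt_of_le hm2 with h | h
      · subst h
        have h10 := h5 c δ K r z (∑ j, ρ j) hW hU hL.rpos hL.zpos hP0 (by simpa using hpos) hQ hσ
        have e3 : ((2 : ℕ) : ℝ) = 2 := by norm_num
        rw [e3]
        norm_num at h10 ⊢
        exact h10
      · exact h4 m c δ K r z (∑ j, ρ j) h hW hU hL.rpos hL.zpos hP0 hpos hσ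
  · obtain ⟨h, ζ, hD⟩ := h2 m c δ a ρ d r z hδ hW.dc hL
    have hPs : ρ h + ∑ i, ρ (h.succAbove i) = ∑ j, ρ j := (Fin.sum_univ_succAbove ρ h).symm
    have hM := h6 m c δ K _ _ _ _ _ _ r z ζ hU hD (by rw [hPs]; exact hQ) (by rw [hPs]; exact hσ)
    obtain ⟨y, R, hy, hys, hR2, hR1, hRK, he, hes⟩ := h7 m c δ K _ _ _ _ _ _ r z ζ hU hD
    have hR : 0 < R := by nlinarith
    have hA := h8 m c δ K _ _ _ _ _ _ r z ζ y R hU hD hM hy hys hR2 hR1 hRK he hes
    refine ⟨y, R, fun i => (hy i).1, hys, hR, hR2, ?_⟩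
    have hu4 := hU.u4
    have hu6 := hU.u6
    have h10 := h9 m c (d h) (∑ j, ρ j) z (fun i => d (h.succAbove i))
      (fun i => y i * (1 - c - y i) / R - y i) (by linarith) (hd h) (fun i => hd _)
      (fun i => by
        have := (he i).2
        show y i * (1 - c - y i) / R - y i < c
        linarith) (by
        rw [hPs] at hA
        have h11 := hD.sumd
        rw [sum_sub_distrib, hes]
        linarith)
    rw [Fin.prod_univ_succAbove _ h]
    exact h10

end Pool.Agent.Work.MP_1ce445_red
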