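import Pool.Agent.Work.MP_1ce445_red.Interface

/-! # Block UNI: the numerical facts -/

namespace Pool.Agent.Work.MP_1ce445_red

open Finset Pool.Agent.Work.MP_1ce445_hub

lemma UNI_sq (a b : ℝ) (hb : 0 ≤ b) (h : a ^ 2 ≤ b ^ 2) : a ≤ b := by
  by_contra hc
  push Not at hc
  nlinarith

/-- `m = 2` -/
lemma UNI_two (c δ K : ℝ) (hd : 0 < δ) (hK : 0 < K) (h1 : 3 * (1 - c) = 1 + δ)
    (h2 : K ^ 2 = δ * (1 - c - δ / 2)) (h3 : δ ≤ 395 / 10000) : Uni 2 c δ K := by
  have hc : c = (2 - δ) / 3 := by linarith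
  have hK2 : K ^ 2 = δ * (2 - δ) / 6 := by
    rw [h2, hc]
    ring
  have u5 : K ≤ 1137 / 10000 := by
    apply UNI_sq _ _ (by norm_num)
    rw [hK2]
    nlinarith
  have h4 : 3 * K ^ 2 ≤ δ := by
    rw [hK2]
    nlinarith
  refine
    { dl := hd
      Kp := hK
      e := ?_
      c1 := by linarith
      u1 := ?_
      u2 := ?_
      u3 := ?_
      u4 := by linarith
      u5 := u5
      u6 := ?_ }
  · push_cast
    rw [h2]
    ring
  · apply UNI_sq _ _ (by positivity)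
    rw [mul_pow, hK2]
    nlinarith
  · push_cast
    rw [hK2]
    nlinarith
  · apply UNI_sq _ _ (by linarith)
    rw [mul_pow, hK2, hc]
    nlinarith
  · nlinarith

/-- `m = 3` -/
lemma UNI_three (c δ K : ℝ) (hd : 0 < δ) (hK : 0 < K) (h1 : 4 * (1 - c) = 1 + δ)
    (h2 : K ^ 2 = δ * (1 - c - δ / 3)) (h3 : δ ≤ 97 / 10000) : Uni 3 c δ K := by
  have hc : c = (3 - δ) / 4 := by linarith
  have hK2 : K ^ 2 = δ * (3 - δ) / 12 := by
    rw [h2, hc]
    ring
  have u5 : K ≤ 492 / 10000 := by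
    apply UNI_sq _ _ (by norm_num)
    rw [hK2]
    nlinarith
  refine
    { dl := hd
      Kp := hK
      e := ?_
      c1 := by linarith
      u1 := ?_
      u2 := ?_
      u3 := ?_
      u4 := by linarith
      u5 := by linarith
      u6 := by linarith }
  · push_cast
    rw [h2]
    ring
  · apply UNI_sq _ _ (by positivity)
    rw [mul_pow, hK2]
    nlinarith
  · push_cast
    rw [hK2]
    nlinarith
  · linarith

/-- `m ≥ 4` -/
lemma UNI_four (m : ℕ) (c δ K : ℝ) (hm : 4 ≤ m) (hd : 0 < δ) (hK : 0 < K)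
    (h1 : ((m : ℝ) + 1) * (1 - c) = 1 + δ) (h2 : K ^ 2 = δ * (1 - c - δ / m))
    (h3 : δ ≤ 1 / (m : ℝ)) (h4 : K ≤ 1 / (2 * (m : ℝ) ^ 2)) : Uni m c δ K := by
  have hM : (4 : ℝ) ≤ m := by exact_mod_cast hm
  have hM0 : (0 : ℝ) < m := by linarith
  have hM1 : (0 : ℝ) < (m : ℝ) + 1 := by linarith
  have hd4 : δ ≤ 1 / 4 := h3.trans (one_div_le_one_div_of_le (by norm_num) hM)
  have hK4 : K * (2 * (m : ℝ) ^ 2) ≤ 1 := by
    rwa [le_div_iff₀ (by positivity)] at h4
  have hK32 : K ≤ 1 / 32 := by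
    have : (16 : ℝ) ≤ (m : ℝ) ^ 2 := by nlinarith
    nlinarith
  have hD1 : 1 - c ≤ 1 / 4 := by
    nlinarith
  have hD2 : 0 < 1 - c := by
    by_contra h
    push Not at h
    nlinarith
  -- `K² m (m + 1) = δ (m - δ)`
  have hKm : K ^ 2 * ((m : ℝ) * (m + 1)) = δ * (m - δ) := by
    rw [h2]
    have e : δ * (1 - c - δ / m) * ((m : ℝ) * (m + 1)) =
        δ * (m * ((m + 1) * (1 - c)) - δ * (m + 1) * (m / m)) := by ring
    rw [e, h1, div_self hM0.ne']
    ring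
  have h5 : 15 / 16 * δ ≤ K ^ 2 * (m + 1) := by
    have : 15 / 16 * δ * m ≤ K ^ 2 * (m + 1) * m := by
      have e : K ^ 2 * ((m : ℝ) + 1) * m = δ * (m - δ) := by rw [← hKm]; ring
      rw [e]
      have : 15 / 16 * m ≤ (m : ℝ) - δ := by linarith
      nlinarith
    exact le_of_mul_le_mul_right this hM0
  have h6 : K * (m + 1) ≤ 5 / 32 := by
    have e1 : (m : ℝ) + 1 ≤ 5 / 16 * (m : ℝ) ^ 2 := by nlinarith
    have e2 : K * (m + 1) ≤ K * (5 / 16 * (m : ℝ) ^ 2) := mul_le_mul_of_nonneg_left e1 hK.le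
    nlinarith
  have h7 : 6 * δ ≤ K := by
    have e1 : K ^ 2 * (m + 1) = K * (K * (m + 1)) := by ring
    have e2 : K * (K * (m + 1)) ≤ K * (5 / 32) := mul_le_mul_of_nonneg_left h6 hK.le
    nlinarith
  refine
    { dl := hd
      Kp := hK
      e := ?_
      c1 := by linarith
      u1 := by linarith
      u2 := ?_
      u3 := ?_
      u4 := by linarith
      u5 := by linarith
      u6 := by linarith }
  · rw [h2]
    ring
  · have e1 : δ ^ 2 * (1 - 1 / (m : ℝ)) ≤ δ ^ 2 := by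
      have : 0 ≤ δ ^ 2 * (1 / (m : ℝ)) := by positivity
      nlinarith
    have e2 : (6 * δ) ^ 2 ≤ K ^ 2 := pow_le_pow_left₀ (by positivity) h7 2
    nlinarith
  · have e1 : 304 / 100 * K * (m + 1) ≤ (1 - c) * (m + 1) := by
      rw [mul_comm (1 - c), h1]
      nlinarith
    exact le_of_mul_le_mul_right e1 hM1

/-- Block UNI. -/
theorem stmt_UNI : Stmt_UNI := by
  intro m c δ K h
  rcases h.win with ⟨h1, h2⟩ | ⟨h1, h2⟩ | ⟨h1, h2, h3⟩
  · subst h1
    have e1 := h.dc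
    have e2 := h.K2
    push_cast at e1 e2
    exact UNI_two c δ K h.dl h.Kp (by linarith) e2 h2
  · subst h1
    have e1 := h.dc
    have e2 := h.K2
    push_cast at e1 e2
    exact UNI_three c δ K h.dl h.Kp (by linarith) e2 h2
  · exact UNI_four m c δ K h1 h.dl h.Kp h.dc h.K2 h2 h3

end Pool.Agent.Work.MP_1ce445_red
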